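import Pool.Agent.H85.LF.Low

/-!
# Module Ball (finite time lower bound without symmetry): pointwise lower bounds on every ball of velocities, and of the mass density, for all solutions whose data
are `≥ c` on a small ball around `(x,v₀(x))` for every `x`

`init_cylG`: the initial cylinders; `cyl_iter` and `long_ball` (radius `R`) give `low_ball`; `mass_low` is `low_ball` with `R = 1` after a short time and the initial
cylinder before.
-/

set_option autoImplicit false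

open MeasureTheory Set Filter Topology Pool.Agent.H25.Kin Pool.Agent.H82.BK Pool.Agent.H82.CM Pool.Agent.H85.LB Pool.Agent.H15.AV

namespace Pool.Agent.H85.LF

variable {d : ℕ} {γ s : ℝ} {b : ℝ → ℝ}

private lemma bl_norm_le {z : Vec d} {r : ℝ} (hr : 0 ≤ r) (h : nsq z ≤ r ^ 2) : ‖z‖ ≤ r := by
  refine (pi_norm_le_iff_of_nonneg hr).2 fun i => ?_
  rw [Real.norm_eq_abs]
  refine abs_le_of_sq_le_sq ?_ hr
  refine le_trans ?_ h
  unfold nsq
  exact Finset.single_le_sum (f := fun i => z i ^ 2) (fun i _ => sq_nonneg (z i)) (Finset.mem_univ i)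

private lemma bl_len {z : Vec d} {r : ℝ} (hr : 0 ≤ r) (h : nsq z ≤ r ^ 2) : len z ≤ r := by
  rw [← len_sq] at h
  exact abs_le_of_sq_le_sq' h hr |>.2

private lemma bl_nsq {z : Vec d} {r : ℝ} (h : len z ≤ r) : nsq z ≤ r ^ 2 := by
  rw [← len_sq]
  exact pow_le_pow_left₀ (len_nonneg z) h 2

private lemma bl_neg (v : Vec d) : len (-v) = len v := by
  unfold len
  congr 1
  unfold nsq
  simp

/-- the initial cylinders, for all data which are bounded below near one velocity at every `x` -/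
theorem init_cylG (hd : 2 ≤ d) (hs : s ∈ Ioo (0 : ℝ) 1) (h0 : 0 ≤ γ + 2 * s) (h2 : γ + 2 * s ≤ 2) (hb : IsKernel d s b)
    (U : ℕ → ℝ) {c r V : ℝ} (hc : 0 < c) (hr : 0 < r) (hV : 0 ≤ V) :
    ∃ r' h : ℝ, 0 < r' ∧ 0 < h ∧ ∀ (T : ℝ) (f : ℝ → Vec d → Vec d → ℝ), IsBoltzmannSol γ b T f →
      UB U T f → ∀ x₀ v₀ : Vec d, nsq v₀ ≤ V ^ 2 → (∀ y w, nsq (y - x₀) + nsq (w - v₀) ≤ r ^ 2 → c ≤ f 0 y w) →
        ∀ t₁ ∈ Ico 0 T, t₁ ≤ h → Cyl f 0 t₁ x₀ v₀ r' r' (c / 2) := by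
  obtain ⟨C, Ca, H⟩ := exists_hyp hd hs.1 hs.2 h0 h2 hb
  obtain ⟨K, hK0, hK⟩ := Pool.Agent.H82.CL.low_Q H
  obtain ⟨κ, hκ0, hκ⟩ := conv_le (d := d) U h0 h2 (V + r)
  have hr2 : 0 < r ^ 2 := by positivity
  -- curvature constant `c₁ ≥ c`, `c₁ ≥ 2 c / r ^ 2`
  set c₁ : ℝ := max c (2 * c / r ^ 2) with hc₁
  have hc₁0 : 0 < c₁ := lt_of_lt_of_le hc (le_max_left _ _)
  set Λ : ℝ := K * c₁ * κ / c + 1 with hΛ
  have hΛ1 : 1 ≤ Λ := by
    have : 0 ≤ K * c₁ * κ / c := by positivity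
    linarith
  have hΛ0 : 0 < Λ := by linarith
  have hV1 : 0 < V + r := by linarith
  refine ⟨r / 4, min 1 (min (r / (4 * (V + r))) (1 / (8 * Λ))), by positivity, by positivity, ?_⟩
  intro T f hf hU x₀ v₀ hv₀ hinit t₁ ht₁ hth
  have hv₀n : ‖v₀‖ ≤ V := bl_norm_le hV hv₀
  have hth1 : t₁ ≤ 1 := hth.trans (min_le_left _ _)
  have hth2 : t₁ ≤ r / (4 * (V + r)) := (hth.trans (min_le_right _ _)).trans (min_le_left _ _)
  have hth3 : t₁ ≤ 1 / (8 * Λ) := (hth.trans (min_le_right _ _)).trans (min_le_right _ _)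
  have hlow := Pool.Agent.H82.CL.local_lower (show IsClassicalSol T _ f from hf) (t₀ := 0)
    (t₁ := t₁) le_rfl ht₁.1 ht₁.2 (by linarith) hc hr hΛ0.le (x₀ := x₀) (v₀ := v₀) hinit
    (by
      intro t' ht' x' v' hv' hfc hsec
      have htT : t' ∈ Ioo 0 T := ⟨ht'.1, ht'.2.trans_lt ht₁.2⟩
      have hn := sol_nice (show IsClassicalSol T _ f from hf) htT x'
      have hnn : ∀ u, 0 ≤ f t' x' u := fun u => hf.nonneg t' ⟨htT.1.le, htT.2⟩ x' u
      have e1 := hK (f t' x') hn hnn v' c₁ hc₁0.le (hfc.trans (le_max_left _ _))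
        (fun h => by
          have q1 := hsec h
          have q2 : 2 * c / r ^ 2 * nsq h ≤ c₁ * nsq h :=
            mul_le_mul_of_nonneg_right (le_max_right _ _) (sq_nonneg' h)
          linarith)
      have hv'n : ‖v'‖ ≤ V + r := by
        have e2 : ‖v' - v₀‖ ≤ r := bl_norm_le hr.le hv'
        have e3 : v' = v₀ + (v' - v₀) := by abel
        rw [e3]
        exact (norm_add_le _ _).trans (by linarith)
      have e4 := hκ (f t' x') hn hnn (fun N v => hU N t' ⟨htT.1.le, htT.2⟩ x' v) v' hv'n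
      have e5 : K * c₁ * (∫ z, f t' x' z * len (v' - z) ^ (γ + 2 * s)) ≤
          K * c₁ * κ := mul_le_mul_of_nonneg_left e4 (by positivity)
      have e6 : c * Λ = K * c₁ * κ + c := by
        rw [hΛ]
        field_simp
      show -(c * Λ) < boltzQ γ b (f t' x') v'
      linarith)
  intro t ht x v hxx hvv
  refine le_trans ?_ (hlow t ht x v)
  rw [sub_zero]
  have hvl : len v ≤ V + r := by
    have e1 : len v₀ ≤ V := bl_len hV hv₀
    have e2 : len (v - v₀) ≤ r / 4 := bl_len (by positivity) hvv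
    have e3 : v = v₀ + (v - v₀) := by abel
    rw [e3]
    exact (Pool.Agent.H48.PL.len_add_le _ _).trans (by linarith)
  have htv : t * len v ≤ r / 4 := by
    have e1 : t ≤ r / (4 * (V + r)) := ht.2.trans hth2
    calc t * len v ≤ r / (4 * (V + r)) * (V + r) :=
          mul_le_mul e1 hvl (len_nonneg v) (by positivity)
      _ = r / 4 := by field_simp
  have hxl : nsq (x - x₀ - t • v) ≤ (r / 2) ^ 2 := by
    refine bl_nsq ?_
    have e1 : len (x - x₀) ≤ r / 4 := bl_len (by positivity) hxx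
    have e2 : x - x₀ - t • v = (x - x₀) + t • (-v) := by
      rw [smul_neg]; abel
    rw [e2]
    refine (Pool.Agent.H48.PL.len_add_le _ _).trans ?_
    have e3 : len (t • (-v)) = t * len v := by
      rw [len_smul ht.1, bl_neg]
    rw [e3]
    linarith
  have hΛt : Λ * t ≤ 1 / 8 := by
    have e1 : t ≤ 1 / (8 * Λ) := ht.2.trans hth3
    calc Λ * t ≤ Λ * (1 / (8 * Λ)) := mul_le_mul_of_nonneg_left e1 hΛ0.le
      _ = 1 / 8 := by field_simp
  have q1 : nsq (v - v₀) / r ^ 2 ≤ 1 / 16 := by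
    rw [div_le_iff₀ hr2]
    linarith [hvv, show (r / 4) ^ 2 = 1 / 16 * r ^ 2 by ring]
  have q2 : nsq (x - x₀ - t • v) / r ^ 2 ≤ 1 / 4 := by
    rw [div_le_iff₀ hr2]
    linarith [hxl, show (r / 2) ^ 2 = 1 / 4 * r ^ 2 by ring]
  calc c / 2 = c * (1 / 2) := by ring
    _ ≤ _ := mul_le_mul_of_nonneg_left (by linarith) hc.le

/-- pointwise lower bound on every ball of velocities, on `[h,t₂]` -/
theorem low_ball (hd : 2 ≤ d) (hs : s ∈ Ioo (0 : ℝ) 1) (h0 : 0 ≤ γ + 2 * s) (h2 : γ + 2 * s ≤ 2) (hb : IsKernel d s b)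
    (U : ℕ → ℝ) {c r V : ℝ} (hc : 0 < c) (hr : 0 < r) (hV : 0 ≤ V) {h : ℝ} (hh : 0 < h) (R t₂ : ℝ) :
    ∃ c' : ℝ, 0 < c' ∧ ∀ (T : ℝ) (f : ℝ → Vec d → Vec d → ℝ), IsBoltzmannSol γ b T f → UB U T f →
      (∀ x, ∃ v₀, nsq v₀ ≤ V ^ 2 ∧ ∀ y w, nsq (y - x) + nsq (w - v₀) ≤ r ^ 2 → c ≤ f 0 y w) →
        ∀ t ∈ Ico 0 T, h ≤ t → t ≤ t₂ → ∀ x v, nsq v ≤ R ^ 2 → c' ≤ f t x v := by
  obtain ⟨C, Ca, cb, HL⟩ := exists_hypL hd hs.1 hs.2 h0 h2 hb
  obtain ⟨r', h₁, hr', hh₁, hcyl⟩ := init_cylG hd hs h0 h2 hb U hc hr hV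
  obtain ⟨R', hR', hlong⟩ := long_ball hd hs h0 h2 hb U R t₂
  obtain ⟨n, hn⟩ : ∃ n : ℕ, V + R' ≤ (51 / 50 : ℝ) ^ n * r' := by
    obtain ⟨n, hn⟩ := pow_unbounded_of_one_lt ((V + R') / r') (show (1 : ℝ) < 51 / 50 by norm_num)
    refine ⟨n, ?_⟩
    rw [div_lt_iff₀ hr'] at hn
    exact hn.le
  set k : ℝ := min h h₁ with hk
  have hk0 : 0 < k := lt_min hh hh₁
  obtain ⟨h', ρ', a', hh'0, hh'h, hρ', ha', hit⟩ := cyl_iter HL U hV n (R := r') (ρ := r') (a := c / 2) (h := k)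
    hr' hr' (by positivity) hk0
  obtain ⟨c₂, hc₂, hl⟩ := hlong a' ha'
  refine ⟨c₂, hc₂, fun T f hf hU hf0 t ht hth htt₂ x v hv => ?_⟩
  have hkt : k ≤ t := (min_le_left _ _).trans hth
  have hkT : k < T := lt_of_le_of_lt hkt ht.2
  have hbig : ∀ x v, nsq v ≤ R' ^ 2 → a' ≤ f k x v := by
    intro x v hv
    obtain ⟨v₀, hv₀, hi⟩ := hf0 x
    have hc := hcyl T f hf hU x v₀ hv₀ hi k ⟨hk0.le, hkT⟩ (min_le_right _ _)
    have hc' : Cyl f (k - k) k x v₀ r' r' (c / 2) := by rw [sub_self]; exact hc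
    have h3 := hit T f hf hU k le_rfl hkT x v₀ hv₀ hc' k ⟨by linarith, le_rfl⟩ x v
      (by rw [sub_self]; unfold nsq; simp; positivity)
    refine h3 ?_
    refine bl_nsq ?_
    have e1 : len v₀ ≤ V := bl_len hV hv₀
    have e2 : len v ≤ R' := bl_len hR'.le hv
    have e3 : len (v - v₀) ≤ len v + len v₀ := by
      rw [sub_eq_add_neg]
      refine (Pool.Agent.H48.PL.len_add_le _ _).trans (le_of_eq ?_)
      rw [bl_neg]
    linarith
  exact hl T f hf hU k hk0.le hbig t ht hkt htt₂ x v hv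

/-- lower bound of the mass density on `[0,t₂]` -/
theorem mass_low (hd : 2 ≤ d) (hs : s ∈ Ioo (0 : ℝ) 1) (h0 : 0 ≤ γ + 2 * s) (h2 : γ + 2 * s ≤ 2) (hb : IsKernel d s b)
    (U : ℕ → ℝ) {c r V : ℝ} (hc : 0 < c) (hr : 0 < r) (hV : 0 ≤ V) (t₂ : ℝ) :
    ∃ c' : ℝ, 0 < c' ∧ ∀ (T : ℝ) (f : ℝ → Vec d → Vec d → ℝ), IsBoltzmannSol γ b T f → UB U T f →
      (∀ x, ∃ v₀, nsq v₀ ≤ V ^ 2 ∧ ∀ y w, nsq (y - x) + nsq (w - v₀) ≤ r ^ 2 → c ≤ f 0 y w) →
        ∀ t ∈ Ico 0 T, t ≤ t₂ → ∀ x, c' ≤ ∫ v, f t x v := by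
  obtain ⟨r', h₁, hr', hh₁, hcyl⟩ := init_cylG hd hs h0 h2 hb U hc hr hV
  obtain ⟨c₁, hc₁, hlow⟩ := low_ball hd hs h0 h2 hb U hc hr hV hh₁ 1 t₂
  obtain ⟨c₂, hc₂, hb1⟩ := mass_ball (d := d) (by omega) hr'
  obtain ⟨c₃, hc₃, hb2⟩ := mass_ball (d := d) (by omega) (r := 1) one_pos
  refine ⟨min (c₂ * (c / 2)) (c₃ * c₁), lt_min (by positivity) (by positivity), fun T f hf hU hf0 t ht htt₂ x => ?_⟩
  rcases le_total t h₁ with hth | hth
  · refine (min_le_left _ _).trans ?_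
    obtain ⟨v₀, hv₀, hi⟩ := hf0 x
    have hc := hcyl T f hf hU x v₀ hv₀ hi t ht hth
    exact hb1 (f t) (sol_slice (show IsClassicalSol T _ f from hf) ht) x v₀ (c / 2) (by positivity)
      fun v hv => hc t ⟨ht.1, le_rfl⟩ x v (by rw [sub_self]; unfold nsq; simp; positivity) hv
  · refine (min_le_right _ _).trans ?_
    exact hb2 (f t) (sol_slice (show IsClassicalSol T _ f from hf) ht) x 0 c₁ hc₁.le
      fun v hv => hlow T f hf hU hf0 t ht hth htt₂ x v (by simpa using hv)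

/-- data near a homogeneous profile satisfy the initial hypothesis of `low_ball` and `mass_low` -/
theorem near_init {F : Vec d → ℝ} (hF : Continuous F) (hm : 0 < ∫ v, F v) : ∃ c r V ε : ℝ, 0 < c ∧ 0 < r ∧ 0 ≤ V ∧
    0 < ε ∧ ∀ g : Vec d → Vec d → ℝ, (∀ x v, |g x v - F v| ≤ ε) →
      ∀ x, ∃ v₀, nsq v₀ ≤ V ^ 2 ∧ ∀ y w, nsq (y - x) + nsq (w - v₀) ≤ r ^ 2 → c ≤ g y w := by
  obtain ⟨v₀, hv₀⟩ : ∃ v, 0 < F v := by
    by_contra hcon
    push Not at hcon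
    have h1 := integral_nonpos (μ := (volume : Measure (Vec d))) (f := fun v => F v) (fun v => hcon v)
    exact absurd hm (not_lt.2 h1)
  have h1 : ∀ᶠ w in 𝓝 v₀, F v₀ / 2 < F w := hF.continuousAt.eventually (lt_mem_nhds (by linarith))
  obtain ⟨r, hr, hb1⟩ := Metric.eventually_nhds_iff.1 h1
  refine ⟨F v₀ / 4, r / 2, len v₀, F v₀ / 4, by positivity, by positivity, len_nonneg _, by positivity,
    fun g hg x => ⟨v₀, by rw [len_sq], fun y w hyw => ?_⟩⟩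
  have h3 : nsq (w - v₀) ≤ (r / 2) ^ 2 := by linarith [sq_nonneg' (y - x)]
  have h4 : ‖w - v₀‖ ≤ r / 2 := bl_norm_le (by positivity) h3
  have h5 : F v₀ / 2 < F w := hb1 (by rw [dist_eq_norm]; linarith)
  have h6 := (abs_le.1 (hg y w)).1
  linarith

end Pool.Agent.H85.LF
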