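import Pool.Agent.H85.LB.GeoG

/-!
# Module Grow (finite time lower bound without symmetry): the gain from a ball is bounded below slightly outside of the ball

`|v - v₀| ≤ (11/10) R` and `f ≥ 1` on the ball of radius `R` about `v₀`. If `|v - v₀| ≤ R/2` take the `w` with `R/4 ≤ |v-w| ≤ R/2`: then `v', w'` have a distance
`≤ |v-w| ≤ R/2` from `v`. Otherwise take the `w` with `|w - v₀| ≤ R/20`: with `z = v - v₀`, `u = w - v₀`, `1/4 ≤ cos θ ≤ 1/2`:
`|v' - v₀|² ≤ (|z|²+|u|²)/2 + |v-w|²/4 + |v-w||u| ≤ R²`, the same for `w'`.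
-/

set_option autoImplicit false

open MeasureTheory Set Filter Topology Pool.Agent.H25.Kin Pool.Agent.H82.BK Pool.Agent.H82.CM Pool.Agent.H85.LB
open scoped ENNReal

namespace Pool.Agent.H85.LF

variable {d : ℕ} {γ s C Ca cb : ℝ} {b : ℝ → ℝ}

private lemma gr_dot_le (u v : Vec d) : |dot u v| ≤ len u * len v := by
  have h := dot_sq_le u v
  have h0 := len_nonneg u
  have h1 := len_nonneg v
  rw [← len_sq u, ← len_sq v] at h
  refine abs_le_of_sq_le_sq ?_ (by positivity)
  rw [mul_pow]; exact h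

/-- the two post-collisional velocities relative to `v₀` -/
private lemma gr_post {v w σ v₀ : Vec d} (hvw : v ≠ w) (hσ : nsq σ = 1) :
    nsq (post v w σ - v₀) = (nsq (v - v₀) + nsq (w - v₀)) / 2 +
      len (v - w) / 2 * (cosTh v w σ * len (v - w) + 2 * dot (w - v₀) σ) ∧
    nsq (post' v w σ - v₀) = (nsq (v - v₀) + nsq (w - v₀)) / 2 -
      len (v - w) / 2 * (cosTh v w σ * len (v - w) + 2 * dot (w - v₀) σ) := by
  have hl : 0 < len (v - w) := len_pos (sub_ne_zero.2 hvw)
  have hc : cosTh v w σ * len (v - w) = dot σ (v - w) := by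
    unfold cosTh; field_simp
  have hd1 : dot σ (v - w) + 2 * dot (w - v₀) σ = dot ((v - v₀) + (w - v₀)) σ := by
    unfold dot
    rw [Finset.mul_sum, ← Finset.sum_add_distrib]
    refine Finset.sum_congr rfl fun i _ => ?_
    simp only [Pi.sub_apply, Pi.add_apply]
    ring
  have hl2 : len (v - w) ^ 2 = nsq ((v - v₀) - (w - v₀)) := by
    rw [len_sq, sub_sub_sub_cancel_right]
  have hpar := nsq_par (v - v₀) (w - v₀)
  set S := (v - v₀) + (w - v₀) with hS
  set L := len (v - w) with hL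
  have e1 : post v w σ - v₀ = (1 / 2 : ℝ) • S + (L / 2) • σ := by
    unfold post; rw [hS]; module
  have e2 : post' v w σ - v₀ = (1 / 2 : ℝ) • S - (L / 2) • σ := by
    unfold post'; rw [hS]; module
  have key : ∀ a : ℝ, nsq ((1 / 2 : ℝ) • S + a • σ) = nsq S / 4 + a * dot S σ + a ^ 2 := by
    intro a
    have : nsq ((1 / 2 : ℝ) • S + a • σ) = nsq S / 4 + a * dot S σ + a ^ 2 * nsq σ := by
      unfold nsq dot
      rw [Finset.mul_sum, Finset.mul_sum, Finset.sum_div, ← Finset.sum_add_distrib,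
        ← Finset.sum_add_distrib]
      refine Finset.sum_congr rfl fun i _ => ?_
      simp only [Pi.smul_apply, Pi.add_apply, smul_eq_mul]
      ring
    rw [this, hσ, mul_one]
  have e3 : (1 / 2 : ℝ) • S - (L / 2) • σ = (1 / 2 : ℝ) • S + (-(L / 2)) • σ := by
    rw [neg_smul, sub_eq_add_neg]
  rw [e1, e2, e3, key, key, hc, hd1]
  constructor
  · linarith
  · linarith

/-- case 1: `v` well inside -/
private lemma gr_case1 {v w σ v₀ : Vec d} {R : ℝ} (hR : 0 < R) (hσ : nsq σ = 1)
    (hz : len (v - v₀) ≤ R / 2) (hl : len (v - w) ≤ R / 2) :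
    nsq (post v w σ - v₀) ≤ R ^ 2 ∧ nsq (post' v w σ - v₀) ≤ R ^ 2 := by
  have h1 : len σ = 1 := by unfold len; rw [hσ, Real.sqrt_one]
  have h0 := len_nonneg (v - w)
  have key : ∀ τ : Vec d, len τ = 1 → nsq ((v - v₀) + ((1 / 2 : ℝ) • (w - v) + (len (v - w) / 2) • τ)) ≤ R ^ 2 := by
    intro τ hτ
    have h2 := Pool.Agent.H48.PL.len_add_le (v - v₀) ((1 / 2 : ℝ) • (w - v) + (len (v - w) / 2) • τ)
    have h3 := Pool.Agent.H48.PL.len_add_le ((1 / 2 : ℝ) • (w - v)) ((len (v - w) / 2) • τ)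
    rw [len_smul (by norm_num : (0 : ℝ) ≤ 1 / 2), len_smul (by positivity), hτ, len_comm w v] at h3
    have h4 : len ((v - v₀) + ((1 / 2 : ℝ) • (w - v) + (len (v - w) / 2) • τ)) ≤ R := by linarith
    have h5 := len_nonneg ((v - v₀) + ((1 / 2 : ℝ) • (w - v) + (len (v - w) / 2) • τ))
    rw [← len_sq]
    exact pow_le_pow_left₀ h5 h4 2
  have hn : len (-σ) = 1 := by rw [len_neg, h1]
  constructor
  · have e : post v w σ - v₀ = (v - v₀) + ((1 / 2 : ℝ) • (w - v) + (len (v - w) / 2) • σ) := by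
      unfold post; module
    rw [e]; exact key σ h1
  · have e : post' v w σ - v₀ = (v - v₀) + ((1 / 2 : ℝ) • (w - v) + (len (v - w) / 2) • (-σ)) := by
      unfold post'; module
    rw [e]; exact key (-σ) hn

/-- case 2: `v` near the boundary or slightly outside, `w` near the centre -/
private lemma gr_case2 {v w σ v₀ : Vec d} {R : ℝ} (hR : 0 < R) (hσ : nsq σ = 1) (hvw : v ≠ w)
    (hz : len (v - v₀) ≤ 11 / 10 * R) (hu : len (w - v₀) ≤ R / 20)
    (hc : 1 / 4 ≤ cosTh v w σ ∧ cosTh v w σ ≤ 1 / 2) :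
    nsq (post v w σ - v₀) ≤ R ^ 2 ∧ nsq (post' v w σ - v₀) ≤ R ^ 2 := by
  obtain ⟨e1, e2⟩ := gr_post (v₀ := v₀) hvw hσ
  have h1 : len σ = 1 := by unfold len; rw [hσ, Real.sqrt_one]
  have hd := gr_dot_le (w - v₀) σ
  rw [h1, mul_one] at hd
  have hd' := abs_le.1 hd
  have hz0 := len_nonneg (v - v₀)
  have hu0 := len_nonneg (w - v₀)
  have hL0 := len_nonneg (v - w)
  have hL : len (v - w) ≤ 23 / 20 * R := by
    have h := Pool.Agent.H48.PL.len_sub_le (v - v₀) (w - v₀)
    rw [sub_sub_sub_cancel_right] at h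
    linarith
  have hz2 : nsq (v - v₀) ≤ (11 / 10 * R) ^ 2 := by
    rw [← len_sq]; exact pow_le_pow_left₀ hz0 hz 2
  have hu2 : nsq (w - v₀) ≤ (R / 20) ^ 2 := by
    rw [← len_sq]; exact pow_le_pow_left₀ hu0 hu 2
  set L := len (v - w) with hLd
  set c := cosTh v w σ with hcd
  set D := dot (w - v₀) σ with hDd
  have hL2 : L ^ 2 ≤ (23 / 20 * R) ^ 2 := pow_le_pow_left₀ hL0 hL 2
  have hcL : c * L ≤ 1 / 2 * L := mul_le_mul_of_nonneg_right hc.2 hL0
  have hcL0 : 0 ≤ c * L := mul_nonneg (by linarith [hc.1]) hL0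
  have hD1 : D ≤ R / 20 := hd'.2.trans hu
  have hD2 : -(R / 20) ≤ D := by linarith [hd'.1]
  have hR2 : 0 < R ^ 2 := by positivity
  constructor
  · rw [e1]
    have h3 : L / 2 * (c * L + 2 * D) ≤ L / 2 * (1 / 2 * L + 2 * (R / 20)) :=
      mul_le_mul_of_nonneg_left (by linarith) (by positivity)
    have h4 : L / 2 * (1 / 2 * L + 2 * (R / 20)) = L ^ 2 / 4 + L * (R / 20) := by ring
    have h5 : L * (R / 20) ≤ 23 / 20 * R * (R / 20) := mul_le_mul_of_nonneg_right hL (by positivity)
    nlinarith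
  · rw [e2]
    have h3 : L / 2 * (-(2 * (R / 20))) ≤ L / 2 * (c * L + 2 * D) :=
      mul_le_mul_of_nonneg_left (by linarith) (by positivity)
    have h4 : L / 2 * (-(2 * (R / 20))) = -(L * (R / 20)) := by ring
    have h5 : L * (R / 20) ≤ 23 / 20 * R * (R / 20) := mul_le_mul_of_nonneg_right hL (by positivity)
    nlinarith

/-- volume of a spherical shell, translated -/
private lemma gr_shell (hd : 1 ≤ d) {R : ℝ} (hR : 0 < R) : ∃ c : ℝ, 0 < c ∧ ∀ v : Vec d,
    ENNReal.ofReal c ≤ (volume : Measure (Vec d)) {w : Vec d | R / 4 ≤ len (v - w) ∧ len (v - w) ≤ R / 2} := by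
  set S : Set (Vec d) := {z | R / 4 ≤ len z ∧ len z ≤ R / 2} with hS
  have hSm : MeasurableSet S := by
    have h1 : MeasurableSet {z : Vec d | R / 4 ≤ len z} := (isClosed_le continuous_const continuous_len).measurableSet
    have h2 : MeasurableSet {z : Vec d | len z ≤ R / 2} := (isClosed_le continuous_len continuous_const).measurableSet
    exact h1.inter h2
  have hpos : 0 < (volume : Measure (Vec d)) S := by
    have ho : IsOpen {z : Vec d | R / 4 < len z ∧ len z < R / 2} := by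
      have h1 : IsOpen {z : Vec d | R / 4 < len z} := isOpen_lt continuous_const continuous_len
      have h2 : IsOpen {z : Vec d | len z < R / 2} := isOpen_lt continuous_len continuous_const
      exact h1.inter h2
    have hz : ({z : Vec d | R / 4 < len z ∧ len z < R / 2}).Nonempty := by
      refine ⟨fun i => if i = ⟨0, by omega⟩ then 3 / 8 * R else 0, ?_⟩
      have h1 : nsq (fun i : Fin d => if i = ⟨0, by omega⟩ then (3 / 8 * R : ℝ) else 0) = (3 / 8 * R) ^ 2 := by
        unfold nsq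
        rw [Finset.sum_eq_single ⟨0, by omega⟩]
        · simp
        · intro b _ hb
          simp [hb]
        · simp
      have h2 : len (fun i : Fin d => if i = ⟨0, by omega⟩ then (3 / 8 * R : ℝ) else 0) = 3 / 8 * R := by
        unfold len
        rw [h1]
        exact Real.sqrt_sq (by positivity)
      show R / 4 < len _ ∧ len _ < R / 2
      rw [h2]
      constructor <;> linarith
    refine lt_of_lt_of_le (ho.measure_pos volume hz) (measure_mono ?_)
    rintro z ⟨h1, h2⟩
    exact ⟨h1.le, h2.le⟩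
  have hm0 : min ((volume : Measure (Vec d)) S) 1 ≠ 0 := by
    rw [← pos_iff_ne_zero]
    exact lt_min hpos zero_lt_one
  have hmt : min ((volume : Measure (Vec d)) S) 1 ≠ ⊤ := ne_top_of_le_ne_top ENNReal.one_ne_top (min_le_right _ _)
  refine ⟨(min ((volume : Measure (Vec d)) S) 1).toReal, ENNReal.toReal_pos hm0 hmt, fun v => ?_⟩
  rw [ENNReal.ofReal_toReal hmt]
  refine le_trans (min_le_left _ _) (le_of_eq ?_)
  have h := (Measure.measurePreserving_sub_left (volume : Measure (Vec d)) v).measure_preimage hSm.nullMeasurableSet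
  rw [← h]
  rfl

/-- volume of a ball, translated -/
private lemma gr_ball {R : ℝ} (hR : 0 < R) : ∃ c : ℝ, 0 < c ∧ ∀ v₀ : Vec d,
    ENNReal.ofReal c ≤ (volume : Measure (Vec d)) {w : Vec d | len (v₀ - w) ≤ R / 20} := by
  set S : Set (Vec d) := {z | len z ≤ R / 20} with hS
  have hSm : MeasurableSet S := (isClosed_le continuous_len continuous_const).measurableSet
  have hpos : 0 < (volume : Measure (Vec d)) S := by
    have ho : IsOpen {z : Vec d | len z < R / 20} := isOpen_lt continuous_len continuous_const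
    have hz : ({z : Vec d | len z < R / 20}).Nonempty :=
      ⟨0, by show len 0 < R / 20; rw [len_zero]; positivity⟩
    refine lt_of_lt_of_le (ho.measure_pos volume hz) (measure_mono ?_)
    intro z h1
    exact (show len z < R / 20 from h1).le
  have hm0 : min ((volume : Measure (Vec d)) S) 1 ≠ 0 := by
    rw [← pos_iff_ne_zero]
    exact lt_min hpos zero_lt_one
  have hmt : min ((volume : Measure (Vec d)) S) 1 ≠ ⊤ := ne_top_of_le_ne_top ENNReal.one_ne_top (min_le_right _ _)
  refine ⟨(min ((volume : Measure (Vec d)) S) 1).toReal, ENNReal.toReal_pos hm0 hmt, fun v => ?_⟩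
  rw [ENNReal.ofReal_toReal hmt]
  refine le_trans (min_le_left _ _) (le_of_eq ?_)
  have h := (Measure.measurePreserving_sub_left (volume : Measure (Vec d)) v).measure_preimage hSm.nullMeasurableSet
  rw [← h]
  rfl

/-- lower bound of the kernel -/
private lemma gr_ker (HL : HypL d γ s b C Ca cb) {R : ℝ} (hR : 0 < R) : ∃ k : ℝ, 0 < k ∧
    ∀ v w σ : Vec d, R / 4 ≤ len (v - w) → len (v - w) ≤ 2 * R → 1 / 4 ≤ cosTh v w σ →
      cosTh v w σ ≤ 1 / 2 → k ≤ kerB γ (bmid b) (1 / 2) v w σ := by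
  refine ⟨min ((R / 4) ^ γ) ((2 * R) ^ γ) * cb, ?_, fun v w σ h1 h2 h3 h4 => ?_⟩
  · have := HL.lo.1
    have h1 : 0 < (R / 4) ^ γ := Real.rpow_pos_of_pos (by positivity) _
    have h2 : 0 < (2 * R) ^ γ := Real.rpow_pos_of_pos (by positivity) _
    exact mul_pos (lt_min h1 h2) this
  have hcb := HL.lo.1
  have hβ := HL.H.β0
  unfold kerB
  rw [if_pos (by linarith : cosTh v w σ ≤ 1 - 1 / 2)]
  unfold bmid
  rw [if_pos ⟨h3, h4⟩]
  set x := cosTh v w σ with hx
  have h5 := HL.lo.2 x (by linarith) (by linarith)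
  have h6 : 1 ≤ (1 - x) ^ (-(((d : ℝ) - 1) / 2 + s)) :=
    Real.one_le_rpow_of_pos_of_le_one_of_nonpos (by linarith) (by linarith) (by linarith)
  have h7 : cb ≤ b x := by nlinarith
  have hl : 0 < len (v - w) := lt_of_lt_of_le (by positivity) h1
  have h8 : min ((R / 4) ^ γ) ((2 * R) ^ γ) ≤ len (v - w) ^ γ := by
    rcases le_total 0 γ with hγ | hγ
    · exact (min_le_left _ _).trans (Real.rpow_le_rpow (by positivity) h1 hγ)
    · exact (min_le_right _ _).trans (Real.rpow_le_rpow_of_nonpos hl h2 hγ)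
  exact mul_le_mul h8 h7 hcb.le (Real.rpow_nonneg hl.le _)

theorem grow_gain (HL : HypL d γ s b C Ca cb) {R : ℝ} (hR : 0 < R) : ∃ c₃ : ℝ, 0 < c₃ ∧
    ∀ (v₀ : Vec d) (A : Set (Vec d)), (∀ w, nsq (w - v₀) ≤ R ^ 2 → w ∈ A) →
      ∀ v : Vec d, nsq (v - v₀) ≤ (11 / 10 * R) ^ 2 →
        ENNReal.ofReal c₃ ≤ Gn γ (bmid b) (1 / 2) (A.indicator fun _ => (1 : ℝ)) v := by
  obtain ⟨cm, hcm, hmass⟩ := Pool.Agent.H85.LB.mid_mass HL.H.hd
  obtain ⟨c1, hc1, hshell⟩ := gr_shell HL.H.hd1 hR
  obtain ⟨c2, hc2, hball⟩ := gr_ball (d := d) hR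
  obtain ⟨k, hk, hker⟩ := gr_ker HL hR
  refine ⟨k * (cm * min c1 c2), by positivity, fun v₀ A hA v hv => ?_⟩
  have hvl : len (v - v₀) ≤ 11 / 10 * R := by
    have h := len_sq (v - v₀)
    have h0 := len_nonneg (v - v₀)
    exact abs_le_of_sq_le_sq' (by rw [h]; exact hv) (by positivity) |>.2
  -- the set of the good `w`
  obtain ⟨W, hWm, hWv, hW⟩ : ∃ W : Set (Vec d), MeasurableSet W ∧
      ENNReal.ofReal (min c1 c2) ≤ volume W ∧
      ∀ w ∈ W, v ≠ w ∧ R / 4 ≤ len (v - w) ∧ len (v - w) ≤ 2 * R ∧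
        ∀ σ, nsq σ = 1 → 1 / 4 ≤ cosTh v w σ → cosTh v w σ ≤ 1 / 2 →
          post v w σ ∈ A ∧ post' v w σ ∈ A := by
    rcases le_total (len (v - v₀)) (R / 2) with h | h
    · refine ⟨{w : Vec d | R / 4 ≤ len (v - w) ∧ len (v - w) ≤ R / 2}, ?_, ?_, ?_⟩
      · have m1 : Measurable fun w : Vec d => len (v - w) :=
          continuous_len.measurable.comp (measurable_const.sub measurable_id)
        exact (measurableSet_le measurable_const m1).inter (measurableSet_le m1 measurable_const)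
      · exact (ENNReal.ofReal_le_ofReal (min_le_left _ _)).trans (hshell v)
      · rintro w ⟨h1, h2⟩
        refine ⟨?_, h1, by linarith, fun σ hσ _ _ => ?_⟩
        · rintro rfl
          rw [sub_self, len_zero] at h1
          linarith
        · obtain ⟨q1, q2⟩ := gr_case1 hR hσ h h2
          exact ⟨hA _ q1, hA _ q2⟩
    · refine ⟨{w : Vec d | len (v₀ - w) ≤ R / 20}, ?_, ?_, ?_⟩
      · have m1 : Measurable fun w : Vec d => len (v₀ - w) :=
          continuous_len.measurable.comp (measurable_const.sub measurable_id)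
        exact measurableSet_le m1 measurable_const
      · exact (ENNReal.ofReal_le_ofReal (min_le_right _ _)).trans (hball v₀)
      · intro w hw
        have hw' : len (w - v₀) ≤ R / 20 := by rw [len_comm]; exact hw
        have h3 := Pool.Agent.H48.PL.len_sub_le (v - v₀) (w - v₀)
        rw [sub_sub_sub_cancel_right] at h3
        have h4 : len (v - v₀) ≤ len (v - w) + len (w - v₀) := by
          have := Pool.Agent.H48.PL.len_add_le (v - w) (w - v₀)
          rwa [sub_add_sub_cancel] at this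
        have h5 : R / 4 ≤ len (v - w) := by linarith
        have hne : v ≠ w := by
          rintro rfl
          rw [sub_self, len_zero] at h5
          linarith
        refine ⟨hne, h5, by linarith, fun σ hσ q1 q2 => ?_⟩
        obtain ⟨q3, q4⟩ := gr_case2 hR hσ hne hvl hw' ⟨q1, q2⟩
        exact ⟨hA _ q3, hA _ q4⟩
  calc ENNReal.ofReal (k * (cm * min c1 c2))
      = ENNReal.ofReal k * (ENNReal.ofReal cm * ENNReal.ofReal (min c1 c2)) := by
        rw [ENNReal.ofReal_mul hk.le, ENNReal.ofReal_mul hcm.le]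
    _ ≤ ENNReal.ofReal k * (ENNReal.ofReal cm * volume W) := by gcongr
    _ = ENNReal.ofReal k * ∫⁻ _w in W, ENNReal.ofReal cm := by rw [setLIntegral_const]
    _ = ∫⁻ _w in W, ENNReal.ofReal k * ENNReal.ofReal cm := by
        rw [lintegral_const_mul' _ _ ENNReal.ofReal_ne_top]
    _ ≤ ∫⁻ w in W, ∫⁻ σ, ENNReal.ofReal (kerB γ (bmid b) (1 / 2) v w σ *
          ((A.indicator (fun _ => (1 : ℝ))) (post' v w σ) * (A.indicator (fun _ => (1 : ℝ))) (post v w σ))) ∂(surf d) := by
        refine setLIntegral_mono' hWm fun w hw => ?_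
        obtain ⟨hne, h1, h2, h3⟩ := hW w hw
        have hTm : MeasurableSet {σ : Vec d | 1 / 4 ≤ cosTh v w σ ∧ cosTh v w σ ≤ 1 / 2} :=
          (measurableSet_le measurable_const (measurable_cosTh' v w)).inter
            (measurableSet_le (measurable_cosTh' v w) measurable_const)
        calc ENNReal.ofReal k * ENNReal.ofReal cm
            ≤ ENNReal.ofReal k * surf d {σ : Vec d | 1 / 4 ≤ cosTh v w σ ∧ cosTh v w σ ≤ 1 / 2} := by
              gcongr; exact hmass v w hne
          _ = ∫⁻ _σ in {σ : Vec d | 1 / 4 ≤ cosTh v w σ ∧ cosTh v w σ ≤ 1 / 2}, ENNReal.ofReal k ∂(surf d) := by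
              rw [setLIntegral_const]
          _ ≤ ∫⁻ σ in {σ : Vec d | 1 / 4 ≤ cosTh v w σ ∧ cosTh v w σ ≤ 1 / 2},
                ENNReal.ofReal (kerB γ (bmid b) (1 / 2) v w σ *
                  ((A.indicator (fun _ => (1 : ℝ))) (post' v w σ) * (A.indicator (fun _ => (1 : ℝ))) (post v w σ))) ∂(surf d) := by
              refine lintegral_mono_ae ?_
              filter_upwards [ae_restrict_mem hTm, ae_restrict_of_ae surf_ae] with σ hσ1 hσ
              obtain ⟨q1, q2⟩ := h3 σ hσ hσ1.1 hσ1.2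
              rw [indicator_of_mem q1, indicator_of_mem q2, mul_one, mul_one]
              exact ENNReal.ofReal_le_ofReal (hker v w σ h1 h2 hσ1.1 hσ1.2)
          _ ≤ _ := setLIntegral_le_lintegral _ _
    _ ≤ _ := setLIntegral_le_lintegral _ _

end Pool.Agent.H85.LF
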