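import Pool.Agent.H85.LB.Defs

/-!
# Module LBar (finite time lower bound without symmetry): local lower barriers

Copy of `lower_barrier` (H85/LB/Barr) with a barrier which is nonpositive outside of a bounded set of `(x,v)` in place of a periodic one: minimum over a compact set.
-/

set_option autoImplicit false

open MeasureTheory Set Filter Topology Pool.Agent.H25.Kin

namespace Pool.Agent.H85.LF

variable {d : ℕ}

/-- a function which is at least its value at `τ` on the left of `τ` has a nonpositive derivative -/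
private lemma lbar_deriv {g : ℝ → ℝ} {g' τ t₀ : ℝ} (hτ : t₀ < τ) (hg : HasDerivAt g g' τ)
    (h : ∀ r ∈ Ioo t₀ τ, g τ ≤ g r) : g' ≤ 0 := by
  have h1 := (hasDerivAt_iff_tendsto_slope.mp hg).mono_left
    (nhdsWithin_mono τ (fun r (hr : r ∈ Iio τ) => (ne_of_lt hr : r ≠ τ)))
  refine le_of_tendsto h1 ?_
  filter_upwards [Ioo_mem_nhdsLT hτ] with r hr
  rw [slope_def_field]
  exact div_nonpos_of_nonneg_of_nonpos (by linarith [h r hr]) (by linarith [hr.2])

theorem local_barrier {T : ℝ} {Q f : ℝ → Vec d → Vec d → ℝ} (hf : IsClassicalSol T Q f) {t₀ t₁ X V : ℝ}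
    (h0 : 0 ≤ t₀) (h2 : t₁ < T) {B : ℝ → Vec d → Vec d → ℝ}
    (hBc : ContinuousOn (unc B) (Icc t₀ t₁ ×ˢ univ))
    (hBV : ∀ t ∈ Icc t₀ t₁, ∀ x v, X < ‖x‖ ∨ V < ‖v‖ → B t x v ≤ 0) (hB0 : ∀ x v, B t₀ x v ≤ f t₀ x v)
    (hQ : ∀ t ∈ Ioc t₀ t₁, ∀ x v, 0 < B t x v → f t x v < B t x v →
      (∀ u, f t x v - B t x v ≤ f t x u - B t x u) →
      ∃ D : ℝ, HasDerivAt (fun r => B r (x + (r - t) • v) v) D t ∧ D < Q t x v) :
    ∀ t ∈ Icc t₀ t₁, ∀ x v, B t x v ≤ f t x v := by
  by_contra hcon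
  push Not at hcon
  obtain ⟨t, ht, x, v, hlt⟩ := hcon
  have hsub : Icc t₀ t₁ ⊆ Ico 0 T := fun s hs => ⟨h0.trans hs.1, hs.2.trans_lt h2⟩
  set K : Set (ℝ × Vec d × Vec d) :=
    Icc t₀ t₁ ×ˢ (Metric.closedBall (0 : Vec d) X ×ˢ Metric.closedBall (0 : Vec d) V) with hK
  have hKc : IsCompact K := isCompact_Icc.prod ((isCompact_closedBall _ _).prod (isCompact_closedBall _ _))
  have hGc : ContinuousOn (fun q : ℝ × Vec d × Vec d => unc f q - unc B q) K := by
    refine ContinuousOn.sub ?_ ?_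
    · exact (show ContinuousOn (unc f) (Ico 0 T ×ˢ univ) from hf.isCont).mono
        fun q hq => ⟨hsub hq.1, mem_univ _⟩
    · exact hBc.mono fun q hq => ⟨hq.1, mem_univ _⟩
  have hpos : ∀ s ∈ Icc t₀ t₁, ∀ y w, (X < ‖y‖ ∨ V < ‖w‖) → 0 ≤ f s y w - B s y w := fun s hs y w hw => by
    have h3 := hBV s hs y w hw
    have h4 := hf.nonneg s (hsub hs) y w
    linarith
  have hin : ∀ s ∈ Icc t₀ t₁, ∀ y w, f s y w - B s y w < 0 → (s, y, w) ∈ K := by
    intro s hs y w hlt
    have h1 : ‖y‖ ≤ X := by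
      by_contra h
      have := hpos s hs y w (Or.inl (not_le.1 h))
      linarith
    have h3 : ‖w‖ ≤ V := by
      by_contra h
      have := hpos s hs y w (Or.inr (not_le.1 h))
      linarith
    refine ⟨hs, ?_, ?_⟩
    · rw [Metric.mem_closedBall, dist_zero_right]; exact h1
    · rw [Metric.mem_closedBall, dist_zero_right]; exact h3
  have hmem := hin t ht x v (by linarith)
  obtain ⟨q, hqK, hq⟩ := hKc.exists_isMinOn ⟨_, hmem⟩ hGc
  obtain ⟨τ, y, w⟩ := q
  have hτ : τ ∈ Icc t₀ t₁ := hqK.1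
  have hneg : f τ y w - B τ y w < 0 := by
    have h3 : f τ y w - B τ y w ≤ f t x v - B t x v := hq hmem
    linarith
  have hmin : ∀ s ∈ Icc t₀ t₁, ∀ z u, f τ y w - B τ y w ≤ f s z u - B s z u := by
    intro s hs z u
    by_cases h : f s z u - B s z u < 0
    · exact hq (hin s hs z u h)
    · exact hneg.le.trans (not_lt.1 h)
  have hτ0 : t₀ < τ := by
    rcases hτ.1.lt_or_eq with h | h
    · exact h
    · exfalso
      have h3 := hB0 y w
      rw [h] at h3
      linarith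
  have hBpos : 0 < B τ y w := by
    have h4 := hf.nonneg τ (hsub hτ) y w
    linarith
  obtain ⟨D, hD, hDQ⟩ := hQ τ ⟨hτ0, hτ.2⟩ y w hBpos (by linarith) (fun u => hmin τ hτ y u)
  have hτT : τ ∈ Ioo 0 T := ⟨h0.trans_lt hτ0, hτ.2.trans_lt h2⟩
  have hfd : HasDerivAt (fun r => f r (y + (r - τ) • w) w) (Q τ y w) τ := by
    have h3 := hf.hasDerivAt_char hτT (y - τ • w) w
    have e : y - τ • w + τ • w = y := sub_add_cancel _ _
    rw [e] at h3
    have e2 : (fun s => f s (y - τ • w + s • w) w) = fun r => f r (y + (r - τ) • w) w := by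
      funext r
      congr 1
      rw [sub_smul]
      abel
    rw [e2] at h3
    exact h3
  have hg := hfd.sub hD
  have h5 : Q τ y w - D ≤ 0 := by
    refine lbar_deriv hτ0 hg ?_
    intro r hr
    have h6 := hmin r ⟨hr.1.le, hr.2.le.trans hτ.2⟩ (y + (r - τ) • w) w
    show f τ (y + (τ - τ) • w) w - B τ (y + (τ - τ) • w) w ≤
      f r (y + (r - τ) • w) w - B r (y + (r - τ) • w) w
    rw [sub_self, zero_smul, add_zero]
    exact h6
  linarith

end Pool.Agent.H85.LF
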