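import Pool.Agent.H85.LB.Barr
import Pool.Agent.H85.LB.InitL
import Pool.Agent.H82.CL.LowQ

/-!
# Module Long (finite time lower bound without symmetry): a lower bound on a large ball at time `t₁` propagates up to any finite time

Barrier `a (exp(-L(t)(1+|v|²)) - η)`, `L(t) = exp(Λ (t-t₁))`: at a touching point `E = exp(-L(1+|v|²))`, `f ≤ a E`, second differences `≥ - 2 a L E |h|²` (convexity of `exp`),
so `Q ≥ - K a (1+L) E κ (1+‖v‖)²` (`low_Q`), and the derivative of the barrier is `- a Λ L (1+|v|²) E`.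
-/

set_option autoImplicit false

open MeasureTheory Set Filter Topology Pool.Agent.H25.Kin Pool.Agent.H15.AV Pool.Agent.H85.LB

namespace Pool.Agent.H85.LF

variable {d : ℕ} {γ s : ℝ} {b : ℝ → ℝ}

private lemma lg_pt (U : ℕ → ℝ) {g : Vec d → ℝ}
    (hU : ∀ (N : ℕ) (v : Vec d), (1 + ‖v‖) ^ N * g v ≤ U N) (w : Vec d) :
    g w * (1 + ‖w‖) ^ 2 ≤ |U (d + 3)| * wt d w := by
  have hp : 0 < 1 + ‖w‖ := w_pos w
  have h1 : g w * (1 + ‖w‖) ^ 2 = ((1 + ‖w‖) ^ (d + 3) * g w) * wt d w := by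
    unfold wt
    have h2 : (1 + ‖w‖) ^ (d + 3) = (1 + ‖w‖) ^ 2 * (1 + ‖w‖) ^ (d + 1) := by ring
    rw [h2]
    have h3 : (1 + ‖w‖) ^ (d + 1) ≠ 0 := (pow_pos hp _).ne'
    field_simp
  rw [h1]
  exact mul_le_mul_of_nonneg_right ((hU (d + 3) w).trans (le_abs_self _)) (wt_nonneg w)

private lemma lg_rpow {x μ : ℝ} (hx : 0 ≤ x) (h0 : 0 ≤ μ) (h2 : μ ≤ 2) : x ^ μ ≤ 1 + x ^ 2 := by
  rcases le_total x 1 with h | h
  · have h3 : x ^ μ ≤ 1 := Real.rpow_le_one hx h h0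
    nlinarith [sq_nonneg x]
  · have h3 : x ^ μ ≤ x ^ (2 : ℝ) := Real.rpow_le_rpow_of_exponent_le h h2
    rw [Real.rpow_two] at h3
    linarith

private lemma lg_len {μ : ℝ} (h0 : 0 ≤ μ) (h2 : μ ≤ 2) (v z : Vec d) :
    len (v - z) ^ μ ≤ (1 + d) * (1 + ‖v‖) ^ 2 * (1 + ‖z‖) ^ 2 := by
  have h1 : len (v - z) ^ μ ≤ 1 + len (v - z) ^ 2 := lg_rpow (Real.sqrt_nonneg _) h0 h2
  have h3 : len (v - z) ^ 2 = nsq (v - z) := len_sq _
  have h4 : nsq (v - z) ≤ d * ‖v - z‖ ^ 2 := sq_le _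
  have h5 := w_sub_le v z
  have h6 : (1 + ‖v - z‖) ^ 2 ≤ ((1 + ‖v‖) * (1 + ‖z‖)) ^ 2 :=
    pow_le_pow_left₀ (by positivity) h5 2
  have h7 : (0 : ℝ) ≤ d := Nat.cast_nonneg d
  have h8 : 1 + len (v - z) ^ 2 ≤ (1 + d) * (1 + ‖v - z‖) ^ 2 := by
    rw [h3]
    nlinarith [norm_nonneg (v - z), mul_nonneg h7 (norm_nonneg (v - z)), sq_nonneg ‖v - z‖]
  calc len (v - z) ^ μ ≤ (1 + d) * (1 + ‖v - z‖) ^ 2 := h1.trans h8
    _ ≤ (1 + d) * ((1 + ‖v‖) * (1 + ‖z‖)) ^ 2 := mul_le_mul_of_nonneg_left h6 (by positivity)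
    _ = (1 + d) * (1 + ‖v‖) ^ 2 * (1 + ‖z‖) ^ 2 := by ring

/-- growth of the convolution -/
private lemma lg_conv (U : ℕ → ℝ) {μ : ℝ} (h0 : 0 ≤ μ) (h2 : μ ≤ 2) : ∃ κ : ℝ, 0 ≤ κ ∧
    ∀ g : Vec d → ℝ, (∀ v, 0 ≤ g v) → (∀ (N : ℕ) (v : Vec d), (1 + ‖v‖) ^ N * g v ≤ U N) →
      ∀ v : Vec d, ∫ z, g z * len (v - z) ^ μ ≤ κ * (1 + nsq v) := by
  refine ⟨2 * ((1 + d) * (|U (d + 3)| * ∫ w : Vec d, wt d w)), ?_, ?_⟩
  · have h3 : 0 ≤ ∫ w : Vec d, wt d w := integral_nonneg fun w => wt_nonneg w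
    positivity
  · intro g hg hU v
    have h4 : (1 + ‖v‖) ^ 2 ≤ 2 * (1 + nsq v) := by
      have h5 : ‖v‖ ^ 2 ≤ nsq v := by
        rw [← len_sq]
        exact pow_le_pow_left₀ (norm_nonneg v) (norm_le_len v) 2
      nlinarith [sq_nonneg (1 - ‖v‖)]
    have h6 : ∫ z, g z * len (v - z) ^ μ ≤ ∫ w : Vec d, ((1 + d) * (1 + ‖v‖) ^ 2 * |U (d + 3)|) * wt d w := by
      refine integral_mono_of_nonneg (Filter.Eventually.of_forall fun w => ?_)
        (integrable_wt.const_mul _) (Filter.Eventually.of_forall fun w => ?_)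
      · exact mul_nonneg (hg w) (Real.rpow_nonneg (Real.sqrt_nonneg _) _)
      · have h1 := lg_len h0 h2 v w
        have h7 := lg_pt U hU w
        have h5 : (0 : ℝ) ≤ (1 + d) * (1 + ‖v‖) ^ 2 := by positivity
        calc g w * len (v - w) ^ μ ≤ g w * ((1 + d) * (1 + ‖v‖) ^ 2 * (1 + ‖w‖) ^ 2) :=
              mul_le_mul_of_nonneg_left h1 (hg w)
          _ = ((1 + d) * (1 + ‖v‖) ^ 2) * (g w * (1 + ‖w‖) ^ 2) := by ring
          _ ≤ ((1 + d) * (1 + ‖v‖) ^ 2) * (|U (d + 3)| * wt d w) := mul_le_mul_of_nonneg_left h7 h5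
          _ = ((1 + d) * (1 + ‖v‖) ^ 2 * |U (d + 3)|) * wt d w := by ring
    refine h6.trans ?_
    rw [integral_const_mul]
    have h8 : 0 ≤ (1 + d) * (|U (d + 3)| * ∫ w : Vec d, wt d w) := by
      have h3 : 0 ≤ ∫ w : Vec d, wt d w := integral_nonneg fun w => wt_nonneg w
      positivity
    calc (1 + d) * (1 + ‖v‖) ^ 2 * |U (d + 3)| * ∫ w : Vec d, wt d w
        = ((1 + d) * (|U (d + 3)| * ∫ w : Vec d, wt d w)) * (1 + ‖v‖) ^ 2 := by ring
      _ ≤ ((1 + d) * (|U (d + 3)| * ∫ w : Vec d, wt d w)) * (2 * (1 + nsq v)) :=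
          mul_le_mul_of_nonneg_left h4 h8
      _ = _ := by ring

/-- the barrier -/
private noncomputable def lb (a η Λ t₁ : ℝ) (t : ℝ) (v : Vec d) : ℝ :=
  a * (Real.exp (-(Real.exp (Λ * (t - t₁)) * (1 + nsq v))) - η)

private lemma lb_second {a η Λ t₁ : ℝ} (ha : 0 ≤ a) (t : ℝ) (v h : Vec d) :
    2 * lb a η Λ t₁ t v - 2 * (a * (Real.exp (Λ * (t - t₁)) *
        Real.exp (-(Real.exp (Λ * (t - t₁)) * (1 + nsq v))))) * nsq h ≤
      lb a η Λ t₁ t (v + h) + lb a η Λ t₁ t (v - h) := by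
  unfold lb
  set L := Real.exp (Λ * (t - t₁)) with hL
  have hL0 : 0 < L := Real.exp_pos _
  have hp := nsq_par v h
  have h1 : ∀ x y : ℝ, 2 * Real.exp ((x + y) / 2) ≤ Real.exp x + Real.exp y := by
    intro x y
    have e1 : Real.exp x = Real.exp (x / 2) ^ 2 := by rw [← Real.exp_nat_mul]; congr 1; push_cast; ring
    have e2 : Real.exp y = Real.exp (y / 2) ^ 2 := by rw [← Real.exp_nat_mul]; congr 1; push_cast; ring
    have e3 : Real.exp ((x + y) / 2) = Real.exp (x / 2) * Real.exp (y / 2) := by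
      rw [← Real.exp_add]; congr 1; ring
    rw [e1, e2, e3]
    nlinarith [sq_nonneg (Real.exp (x / 2) - Real.exp (y / 2))]
  have h2 := h1 (-(L * (1 + nsq (v + h)))) (-(L * (1 + nsq (v - h))))
  have e4 : (-(L * (1 + nsq (v + h))) + -(L * (1 + nsq (v - h)))) / 2 =
      -(L * (1 + nsq v)) + -(L * nsq h) := by
    linear_combination (-(L / 2)) * hp
  rw [e4, Real.exp_add] at h2
  have h3 : 1 - L * nsq h ≤ Real.exp (-(L * nsq h)) := by
    have := Real.add_one_le_exp (-(L * nsq h))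
    linarith
  set E := Real.exp (-(L * (1 + nsq v))) with hE
  have hE0 : 0 < E := Real.exp_pos _
  have h4 : E * (1 - L * nsq h) ≤ E * Real.exp (-(L * nsq h)) := mul_le_mul_of_nonneg_left h3 hE0.le
  have h5 : 2 * (E * (1 - L * nsq h)) ≤ Real.exp (-(L * (1 + nsq (v + h)))) + Real.exp (-(L * (1 + nsq (v - h)))) := by
    linarith
  have h6 := mul_le_mul_of_nonneg_left h5 ha
  nlinarith

theorem long_ball (hd : 2 ≤ d) (hs : s ∈ Ioo (0 : ℝ) 1) (h0 : 0 ≤ γ + 2 * s) (h2 : γ + 2 * s ≤ 2)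
    (hb : IsKernel d s b) (U : ℕ → ℝ) (R₀ t₂ : ℝ) : ∃ R : ℝ, 0 < R ∧ ∀ a : ℝ, 0 < a → ∃ c : ℝ, 0 < c ∧
      ∀ (T : ℝ) (f : ℝ → Vec d → Vec d → ℝ), IsBoltzmannSol γ b T f → UB U T f →
        ∀ t₁ : ℝ, 0 ≤ t₁ → (∀ x v, nsq v ≤ R ^ 2 → a ≤ f t₁ x v) →
          ∀ t ∈ Ico 0 T, t₁ ≤ t → t ≤ t₂ → ∀ x v, nsq v ≤ R₀ ^ 2 → c ≤ f t x v := by
  obtain ⟨C, Ca, H⟩ := exists_hyp hd hs.1 hs.2 h0 h2 hb
  obtain ⟨K, hK0, hK⟩ := Pool.Agent.H82.CL.low_Q H
  obtain ⟨κ, hκ0, hκ⟩ := lg_conv (d := d) U h0 h2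
  set Λ : ℝ := 2 * (K * κ) + 1 with hΛ
  have hΛ0 : 0 < Λ := by positivity
  set L₂ : ℝ := Real.exp (Λ * max t₂ 0) with hL₂
  have hL₂1 : 1 ≤ L₂ := Real.one_le_exp (by positivity)
  set A₀ : ℝ := 1 + R₀ ^ 2 with hA₀
  have hA₀1 : 1 ≤ A₀ := by nlinarith [sq_nonneg R₀]
  set M : ℝ := A₀ * L₂ + 1 with hM
  have hM1 : 1 ≤ M := by nlinarith
  set η : ℝ := Real.exp (-M) with hη
  have hη0 : 0 < η := Real.exp_pos _
  refine ⟨M, by linarith, fun a ha => ⟨a * (Real.exp (-(A₀ * L₂)) - η), ?_, ?_⟩⟩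
  · refine mul_pos ha ?_
    have : η < Real.exp (-(A₀ * L₂)) := Real.exp_lt_exp.2 (by linarith)
    linarith
  intro T f hf hU t₁ ht₁ hinit t ht htt htt₂ x v hv
  -- outside of the ball of radius `M` the barrier is nonpositive
  have hout : ∀ r : ℝ, t₁ ≤ r → ∀ u : Vec d, M ≤ 1 + nsq u → lb a η Λ t₁ r u ≤ 0 := by
    intro r hr u hu
    unfold lb
    have h3 : 1 ≤ Real.exp (Λ * (r - t₁)) := Real.one_le_exp (mul_nonneg hΛ0.le (by linarith))
    have h4 : Real.exp (-(Real.exp (Λ * (r - t₁)) * (1 + nsq u))) ≤ η := by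
      refine Real.exp_le_exp.2 ?_
      have h5 : 0 ≤ 1 + nsq u := by linarith [sq_nonneg' u]
      nlinarith
    exact mul_nonpos_of_nonneg_of_nonpos ha.le (by linarith)
  have hbar := lower_barrier (show IsClassicalSol T _ f from hf) (t₀ := t₁) (t₁ := t) (V := M) ht₁ htt ht.2
    (B := fun r _ u => lb a η Λ t₁ r u)
    (by
      unfold unc lb
      have h1 : Continuous fun q : ℝ × Vec d × Vec d => nsq q.2.2 := continuous_sq.comp (by fun_prop)
      refine Continuous.continuousOn ?_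
      fun_prop)
    (fun r _ y u i => rfl)
    (by
      intro r hr y u hu
      refine hout r hr.1 u ?_
      have h3 : ‖u‖ ^ 2 ≤ nsq u := by
        rw [← len_sq]
        exact pow_le_pow_left₀ (norm_nonneg u) (norm_le_len u) 2
      have h4 : M ^ 2 ≤ ‖u‖ ^ 2 := pow_le_pow_left₀ (by linarith) hu 2
      nlinarith)
    (by
      intro y u
      show lb a η Λ t₁ t₁ u ≤ f t₁ y u
      by_cases h3 : nsq u ≤ M ^ 2
      · refine le_trans ?_ (hinit y u h3)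
        unfold lb
        have h4 : Real.exp (-(Real.exp (Λ * (t₁ - t₁)) * (1 + nsq u))) ≤ 1 := by
          refine Real.exp_le_one_iff.2 ?_
          have h5 : 0 ≤ 1 + nsq u := by linarith [sq_nonneg' u]
          have := mul_nonneg (Real.exp_pos (Λ * (t₁ - t₁))).le h5
          linarith
        calc a * (Real.exp (-(Real.exp (Λ * (t₁ - t₁)) * (1 + nsq u))) - η) ≤ a * 1 :=
              mul_le_mul_of_nonneg_left (by linarith) ha.le
          _ = a := mul_one a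
      · refine (hout t₁ le_rfl u ?_).trans (hf.nonneg t₁ ⟨ht₁, lt_of_le_of_lt htt ht.2⟩ y u)
        have h4 := not_le.1 h3
        nlinarith)
    (by
      intro r hr y u _ hfB hmin
      have hrT : r ∈ Ioo 0 T := ⟨lt_of_le_of_lt ht₁ hr.1, lt_of_le_of_lt hr.2 ht.2⟩
      have hn := sol_nice (show IsClassicalSol T _ f from hf) hrT y
      have hnn : ∀ w, 0 ≤ f r y w := fun w => hf.nonneg r ⟨hrT.1.le, hrT.2⟩ y w
      set L := Real.exp (Λ * (r - t₁)) with hL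
      have hL1 : 1 ≤ L := Real.one_le_exp (mul_nonneg hΛ0.le (by linarith [hr.1]))
      set E := Real.exp (-(L * (1 + nsq u))) with hE
      have hE0 : 0 < E := Real.exp_pos _
      refine ⟨-(a * (Λ * L * (1 + nsq u) * E)), ?_, ?_⟩
      · have h3 : HasDerivAt (fun r' : ℝ => Λ * (r' - t₁)) Λ r := by
          have := ((hasDerivAt_id r).sub_const t₁).const_mul Λ
          rwa [mul_one] at this
        have h4 := h3.exp
        have h5 : HasDerivAt (fun r' : ℝ => Real.exp (-(Real.exp (Λ * (r' - t₁)) * (1 + nsq u))))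
            (E * -(L * Λ * (1 + nsq u))) r := ((h4.mul_const (1 + nsq u)).neg).exp
        have h6 := (h5.sub_const η).const_mul a
        refine h6.congr_deriv ?_
        ring
      · have hc : f r y u ≤ a * (2 * (L * E)) := by
          refine hfB.le.trans ?_
          unfold lb
          simp only [← hL, ← hE]
          have : E ≤ 2 * (L * E) := by nlinarith
          exact mul_le_mul_of_nonneg_left (by linarith) ha.le
        have hsec : ∀ k, 2 * f r y u - 2 * (a * (2 * (L * E))) * nsq k ≤ f r y (u + k) + f r y (u - k) := by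
          intro k
          have q5 := lb_second (η := η) (Λ := Λ) (t₁ := t₁) ha.le r u k
          simp only [← hL, ← hE] at q5
          have q6 := hmin (u + k)
          have q7 := hmin (u - k)
          have q8 : 0 ≤ a * (L * E) * nsq k := mul_nonneg (by positivity) (sq_nonneg' k)
          linarith
        have q9 := hK (f r y) hn hnn u (a * (2 * (L * E))) (by positivity) hc hsec
        have q10 := hκ (f r y) hnn (fun N w => hU N r ⟨hrT.1.le, hrT.2⟩ y w) u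
        have q11 : K * (a * (2 * (L * E))) * (∫ z, f r y z * len (u - z) ^ (γ + 2 * s)) ≤
            K * (a * (2 * (L * E))) * (κ * (1 + nsq u)) := mul_le_mul_of_nonneg_left q10 (by positivity)
        have q12 : 0 < a * (L * (1 + nsq u) * E) := by
          have : 0 < 1 + nsq u := by linarith [sq_nonneg' u]
          positivity
        have q13 : a * (Λ * L * (1 + nsq u) * E) =
            K * (a * (2 * (L * E))) * (κ * (1 + nsq u)) + a * (L * (1 + nsq u) * E) := by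
          rw [hΛ]; ring
        show _ < boltzQ γ b (f r y) u
        linarith) t ⟨htt, le_rfl⟩ x v
  refine le_trans ?_ hbar
  unfold lb
  refine mul_le_mul_of_nonneg_left ?_ ha.le
  have h3 : Real.exp (-(A₀ * L₂)) ≤ Real.exp (-(Real.exp (Λ * (t - t₁)) * (1 + nsq v))) := by
    refine Real.exp_le_exp.2 ?_
    have h4 : Real.exp (Λ * (t - t₁)) ≤ L₂ := by
      refine Real.exp_le_exp.2 (mul_le_mul_of_nonneg_left ?_ hΛ0.le)
      have := le_max_left t₂ 0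
      linarith
    have h5 : Real.exp (Λ * (t - t₁)) * (1 + nsq v) ≤ L₂ * A₀ :=
      mul_le_mul h4 (by linarith) (by linarith [sq_nonneg' v]) (by linarith)
    linarith
  linarith

theorem long_low (hd : 2 ≤ d) (hs : s ∈ Ioo (0 : ℝ) 1) (h0 : 0 ≤ γ + 2 * s) (h2 : γ + 2 * s ≤ 2)
    (hb : IsKernel d s b) (U : ℕ → ℝ) (t₂ : ℝ) : ∃ R : ℝ, 0 < R ∧ ∀ a : ℝ, 0 < a → ∃ c : ℝ, 0 < c ∧
      ∀ (T : ℝ) (f : ℝ → Vec d → Vec d → ℝ), IsBoltzmannSol γ b T f → UB U T f →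
        ∀ t₁ : ℝ, 0 ≤ t₁ → (∀ x v, nsq v ≤ R ^ 2 → a ≤ f t₁ x v) →
          ∀ t ∈ Ico 0 T, t₁ ≤ t → t ≤ t₂ → ∀ x v, nsq v ≤ 1 → c ≤ f t x v := by
  obtain ⟨R, hR, h⟩ := long_ball hd hs h0 h2 hb U 1 t₂
  refine ⟨R, hR, fun a ha => ?_⟩
  obtain ⟨c, hc, h'⟩ := h a ha
  exact ⟨c, hc, fun T f hf hU t₁ ht₁ hi t ht htt htt₂ x v hv =>
    h' T f hf hU t₁ ht₁ hi t ht htt htt₂ x v (by linarith)⟩

end Pool.Agent.H85.LF
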