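import Pool.Agent.H85.LF.Step
import Pool.Agent.H85.LF.Long

/-!
# Module Low (finite time lower bound without symmetry): the mass density is bounded below on every finite time interval, with a constant which does not depend on the solution

Start: the datum is `≥ c` on a small ball around `(x,v₀(x))` (`unif_pos`), which persists during a short time (`local_lower`): a cylinder (`init_cyl`). `cyl_iter` enlarges it until
it contains the ball of velocities of radius `R` around `0` (`R` from `long_low`, which depends on the final time); `long_low` propagates it.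
-/

set_option autoImplicit false

open MeasureTheory Set Filter Topology Pool.Agent.H25.Kin Pool.Agent.H82.BK Pool.Agent.H82.CM Pool.Agent.H85.LB Pool.Agent.H15.AV

namespace Pool.Agent.H85.LF

variable {d : ℕ} {γ s : ℝ} {b : ℝ → ℝ}

private lemma lo_norm_le {z : Vec d} {r : ℝ} (hr : 0 ≤ r) (h : nsq z ≤ r ^ 2) : ‖z‖ ≤ r := by
  refine (pi_norm_le_iff_of_nonneg hr).2 fun i => ?_
  rw [Real.norm_eq_abs]
  refine abs_le_of_sq_le_sq ?_ hr
  refine le_trans ?_ h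
  unfold nsq
  exact Finset.single_le_sum (f := fun i => z i ^ 2) (fun i _ => sq_nonneg (z i)) (Finset.mem_univ i)

private lemma lo_len {z : Vec d} {r : ℝ} (hr : 0 ≤ r) (h : nsq z ≤ r ^ 2) : len z ≤ r := by
  rw [← len_sq] at h
  exact abs_le_of_sq_le_sq' h hr |>.2

private lemma lo_nsq {z : Vec d} {r : ℝ} (h : len z ≤ r) : nsq z ≤ r ^ 2 := by
  rw [← len_sq]
  exact pow_le_pow_left₀ (len_nonneg z) h 2

/-- the initial cylinders -/
theorem init_cyl (hd : 2 ≤ d) (hs : s ∈ Ioo (0 : ℝ) 1) (h0 : 0 ≤ γ + 2 * s) (h2 : γ + 2 * s ≤ 2) (hb : IsKernel d s b)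
    (U : ℕ → ℝ) {F₀ : Vec d → Vec d → ℝ} (hF : Slice F₀) (hm : ∀ x, 0 < ∫ v, F₀ x v) :
    ∃ c r h V : ℝ, 0 < c ∧ 0 < r ∧ 0 < h ∧ 0 ≤ V ∧ ∀ (T : ℝ) (f : ℝ → Vec d → Vec d → ℝ), IsBoltzmannSol γ b T f →
      UB U T f → f 0 = F₀ → ∀ t₁ ∈ Ico 0 T, t₁ ≤ h → ∀ x₀, ∃ v₀, nsq v₀ ≤ V ^ 2 ∧ Cyl f 0 t₁ x₀ v₀ r r c := by
  have hpos : ∀ x, ∃ v, 0 < F₀ x v := by
    intro x
    by_contra hcon
    push Not at hcon
    have h1 := integral_nonpos (μ := (volume : Measure (Vec d))) (f := fun v => F₀ x v)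
      (fun v => hcon v)
    exact absurd (hm x) (not_lt.2 h1)
  obtain ⟨c, r, V, hc, hr, hr1, hV, hx⟩ := Pool.Agent.H82.CL.unif_pos (f0 := F₀) hF.cont
    (fun v x i => hF.per x v i) hpos
  obtain ⟨C, Ca, H⟩ := exists_hyp hd hs.1 hs.2 h0 h2 hb
  obtain ⟨K, hK0, hK⟩ := Pool.Agent.H82.CL.low_Q H
  obtain ⟨κ, hκ0, hκ⟩ := conv_le (d := d) U h0 h2 (V + 1)
  have hr2 : 0 < r ^ 2 := by positivity
  set Λ : ℝ := 2 * K * κ / r ^ 2 + 1 with hΛ
  have hΛ1 : 1 ≤ Λ := by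
    have : 0 ≤ 2 * K * κ / r ^ 2 := by positivity
    linarith
  have hΛ0 : 0 < Λ := by linarith
  have hV1 : 0 < V + 1 := by linarith
  refine ⟨c / 2, r / 4, min 1 (min (r / (4 * (V + 1))) (1 / (8 * Λ))), V, by positivity, by positivity,
    by positivity, hV, ?_⟩
  intro T f hf hU h00 t₁ ht₁ hth x₀
  obtain ⟨v₀, hv₀, hinit⟩ := hx x₀
  refine ⟨v₀, hv₀, ?_⟩
  have hv₀n : ‖v₀‖ ≤ V := lo_norm_le hV hv₀
  have hth1 : t₁ ≤ 1 := hth.trans (min_le_left _ _)
  have hth2 : t₁ ≤ r / (4 * (V + 1)) := (hth.trans (min_le_right _ _)).trans (min_le_left _ _)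
  have hth3 : t₁ ≤ 1 / (8 * Λ) := (hth.trans (min_le_right _ _)).trans (min_le_right _ _)
  have hlow := Pool.Agent.H82.CL.local_lower (show IsClassicalSol T _ f from hf) (t₀ := 0)
    (t₁ := t₁) le_rfl ht₁.1 ht₁.2 (by linarith) hc hr hΛ0.le (x₀ := x₀) (v₀ := v₀)
    (fun y w hyw => by rw [h00]; exact hinit y w hyw)
    (by
      intro t' ht' x' v' hv' hfc hsec
      have htT : t' ∈ Ioo 0 T := ⟨ht'.1, ht'.2.trans_lt ht₁.2⟩
      have hn := sol_nice (show IsClassicalSol T _ f from hf) htT x'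
      have hnn : ∀ u, 0 ≤ f t' x' u := fun u => hf.nonneg t' ⟨htT.1.le, htT.2⟩ x' u
      have hcc : c ≤ 2 * c / r ^ 2 := by
        rw [le_div_iff₀ hr2]
        have : r ^ 2 ≤ 1 := pow_le_one₀ hr.le hr1
        nlinarith
      have e1 := hK (f t' x') hn hnn v' (2 * c / r ^ 2) (by positivity) (hfc.trans hcc)
        (fun h => hsec h)
      have hv'n : ‖v'‖ ≤ V + 1 := by
        have e2 : ‖v' - v₀‖ ≤ r := lo_norm_le hr.le hv'
        have e3 : v' = v₀ + (v' - v₀) := by abel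
        rw [e3]
        exact (norm_add_le _ _).trans (by linarith)
      have e4 := hκ (f t' x') hn hnn (fun N v => hU N t' ⟨htT.1.le, htT.2⟩ x' v) v' hv'n
      have e5 : K * (2 * c / r ^ 2) * (∫ z, f t' x' z * len (v' - z) ^ (γ + 2 * s)) ≤
          K * (2 * c / r ^ 2) * κ := mul_le_mul_of_nonneg_left e4 (by positivity)
      have e6 : c * Λ = K * (2 * c / r ^ 2) * κ + c := by
        rw [hΛ]
        ring
      show -(c * Λ) < boltzQ γ b (f t' x') v'
      linarith)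
  intro t ht x v hxx hvv
  refine le_trans ?_ (hlow t ht x v)
  rw [sub_zero]
  have hvl : len v ≤ V + 1 := by
    have e1 : len v₀ ≤ V := lo_len hV hv₀
    have e2 : len (v - v₀) ≤ r / 4 := lo_len (by positivity) hvv
    have e3 : v = v₀ + (v - v₀) := by abel
    rw [e3]
    exact (Pool.Agent.H48.PL.len_add_le _ _).trans (by linarith)
  have htv : t * len v ≤ r / 4 := by
    have e1 : t ≤ r / (4 * (V + 1)) := ht.2.trans hth2
    calc t * len v ≤ r / (4 * (V + 1)) * (V + 1) :=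
          mul_le_mul e1 hvl (len_nonneg v) (by positivity)
      _ = r / 4 := by field_simp
  have hxl : nsq (x - x₀ - t • v) ≤ (r / 2) ^ 2 := by
    refine lo_nsq ?_
    have e1 : len (x - x₀) ≤ r / 4 := lo_len (by positivity) hxx
    have e2 : x - x₀ - t • v = (x - x₀) + t • (-v) := by
      rw [smul_neg]; abel
    rw [e2]
    refine (Pool.Agent.H48.PL.len_add_le _ _).trans ?_
    have e3 : len (t • (-v)) = t * len v := by
      rw [len_smul ht.1]
      congr 1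
      unfold len
      congr 1
      unfold nsq
      simp
    rw [e3]
    linarith
  have hΛt : Λ * t ≤ 1 / 8 := by
    have e1 : t ≤ 1 / (8 * Λ) := ht.2.trans hth3
    calc Λ * t ≤ Λ * (1 / (8 * Λ)) := mul_le_mul_of_nonneg_left e1 hΛ0.le
      _ = 1 / 8 := by field_simp
  have q1 : nsq (v - v₀) / r ^ 2 ≤ 1 / 16 := by
    rw [div_le_iff₀ hr2]
    linarith [hvv, show (r / 4) ^ 2 = 1 / 16 * r ^ 2 by ring]
  have q2 : nsq (x - x₀ - t • v) / r ^ 2 ≤ 1 / 4 := by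
    rw [div_le_iff₀ hr2]
    linarith [hxl, show (r / 2) ^ 2 = 1 / 4 * r ^ 2 by ring]
  calc c / 2 = c * (1 / 2) := by ring
    _ ≤ _ := mul_le_mul_of_nonneg_left (by linarith) hc.le

/-- **LOW_FIN**: uniform lower bound of the mass density on finite time intervals, no symmetry -/
theorem low_fin (hd : 2 ≤ d) (hs : s ∈ Ioo (0 : ℝ) 1) (h0 : 0 ≤ γ + 2 * s) (h2 : γ + 2 * s ≤ 2) (hb : IsKernel d s b)
    (U : ℕ → ℝ) {F₀ : Vec d → Vec d → ℝ} (hF : Slice F₀) (hm : ∀ x, 0 < ∫ v, F₀ x v) (t₂ : ℝ) :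
    ∃ c : ℝ, 0 < c ∧ ∀ (T : ℝ) (f : ℝ → Vec d → Vec d → ℝ), IsBoltzmannSol γ b T f → UB U T f → f 0 = F₀ →
      ∀ t ∈ Ico 0 T, t ≤ t₂ → ∀ x, c ≤ ∫ v, f t x v := by
  obtain ⟨C, Ca, cb, HL⟩ := exists_hypL hd hs.1 hs.2 h0 h2 hb
  obtain ⟨c₀, h₀, hc₀, hh₀, hh₀1, hinit⟩ := init_low hd hs h0 h2 hb U hF hm
  obtain ⟨c₁, r, h₁, V, hc₁, hr, hh₁, hV, hcyl⟩ := init_cyl hd hs h0 h2 hb U hF hm
  obtain ⟨R, hR, hlong⟩ := long_low hd hs h0 h2 hb U t₂
  obtain ⟨n, hn⟩ : ∃ n : ℕ, V + R ≤ (51 / 50 : ℝ) ^ n * r := by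
    obtain ⟨n, hn⟩ := pow_unbounded_of_one_lt ((V + R) / r) (show (1 : ℝ) < 51 / 50 by norm_num)
    refine ⟨n, ?_⟩
    rw [div_lt_iff₀ hr] at hn
    exact hn.le
  set h : ℝ := min h₀ h₁ with hh
  have hh0 : 0 < h := lt_min hh₀ hh₁
  obtain ⟨h', ρ', a', hh'0, hh'h, hρ', ha', hit⟩ := cyl_iter HL U hV n (R := r) (ρ := r) (a := c₁) (h := h)
    hr hr hc₁ hh0
  obtain ⟨c₂, hc₂, hl⟩ := hlong a' ha'
  obtain ⟨c₃, hc₃, hball⟩ := mass_ball (d := d) (by omega) (r := 1) one_pos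
  refine ⟨min c₀ (c₃ * c₂), lt_min hc₀ (mul_pos hc₃ hc₂), fun T f hf hU hf0 t ht htt₂ x => ?_⟩
  rcases le_total t h with hth | hth
  · exact (min_le_left _ _).trans (hinit T f hf hU hf0 t ht (hth.trans (min_le_left _ _)) x)
  · have hhT : h < T := lt_of_le_of_lt hth ht.2
    have hbig : ∀ x v, nsq v ≤ R ^ 2 → a' ≤ f h x v := by
      intro x v hv
      obtain ⟨v₀, hv₀, hc⟩ := hcyl T f hf hU hf0 h ⟨hh0.le, hhT⟩ (min_le_right _ _) x
      have hc' : Cyl f (h - h) h x v₀ r r c₁ := by rw [sub_self]; exact hc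
      have h3 := hit T f hf hU h le_rfl hhT x v₀ hv₀ hc' h ⟨by linarith, le_rfl⟩ x v
        (by rw [sub_self]; unfold nsq; simp; positivity)
      refine h3 ?_
      refine lo_nsq ?_
      have e1 : len v₀ ≤ V := lo_len hV hv₀
      have e2 : len v ≤ R := lo_len hR.le hv
      have e3 : len (v - v₀) ≤ len v + len v₀ := by
        rw [sub_eq_add_neg]
        refine (Pool.Agent.H48.PL.len_add_le _ _).trans (le_of_eq ?_)
        congr 1
        unfold len
        congr 1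
        unfold nsq
        simp
      linarith
    refine (min_le_right _ _).trans ?_
    exact hball (f t) (sol_slice (show IsClassicalSol T _ f from hf) ht) x 0 c₂ hc₂.le fun v hv =>
      hl T f hf hU h hh0.le hbig t ht hth htt₂ x v (by simpa using hv)

end Pool.Agent.H85.LF
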