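import Pool.Agent.H85.LF.Grow
import Pool.Agent.H85.LF.LBar
import Pool.Agent.H85.LB.LowG
import Pool.Agent.H85.LB.MomU
import Pool.Agent.H82.CL.Bar
import Pool.Agent.H85.LB.InitL

/-!
# Module Step (finite time lower bound without symmetry): one step of the spreading of positivity

`f ≥ a` on the cylinder `|x-x₀| ≤ ρ`, `|v-v₀| ≤ R` during `[t₁-h,t₁]`. Barrier `β (t-t₀) (1 - |v-v₀|²/(11R/10)² - |x-x₀-(t-t₀)v|²/(ρ/2)²)`, `t₀ = t₁ - h₁`, `h₁` small: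
`local_barrier`, `grow_gain`, `low_Q_gain`. So `f ≥ a'` on `|x-x₀| ≤ ρ/20`, `|v-v₀| ≤ 51R/50` during `[t₁-h₁/2,t₁]`.
-/

set_option autoImplicit false

open MeasureTheory Set Filter Topology Pool.Agent.H25.Kin Pool.Agent.H82.BK Pool.Agent.H82.CM Pool.Agent.H85.LB Pool.Agent.H15.AV

namespace Pool.Agent.H85.LF

variable {d : ℕ} {γ s C Ca cb : ℝ} {b : ℝ → ℝ}

/-- lower bound on a cylinder around `(x₀,v₀)` during `[t₀,t₁]` -/
def Cyl (f : ℝ → Vec d → Vec d → ℝ) (t₀ t₁ : ℝ) (x₀ v₀ : Vec d) (ρ R a : ℝ) : Prop :=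
  ∀ t ∈ Icc t₀ t₁, ∀ x v, nsq (x - x₀) ≤ ρ ^ 2 → nsq (v - v₀) ≤ R ^ 2 → a ≤ f t x v

private lemma st_len {z : Vec d} {r : ℝ} (hr : 0 ≤ r) (h : nsq z ≤ r ^ 2) : len z ≤ r := by
  rw [← len_sq] at h
  exact abs_le_of_sq_le_sq' h hr |>.2

private lemma st_nsq {z : Vec d} {r : ℝ} (h : len z ≤ r) : nsq z ≤ r ^ 2 := by
  rw [← len_sq]
  exact pow_le_pow_left₀ (len_nonneg z) h 2

private lemma st_smul {t : ℝ} (ht : 0 ≤ t) (v : Vec d) : len (t • v) = t * len v := len_smul ht v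

/-- the barrier -/
private noncomputable def sb (β R ρ t₀ : ℝ) (x₀ v₀ : Vec d) (t : ℝ) (x v : Vec d) : ℝ :=
  β * (t - t₀) * (1 - nsq (v - v₀) / (11 / 10 * R) ^ 2 - nsq (x - x₀ - (t - t₀) • v) / (ρ / 2) ^ 2)

private lemma sb_cont (β R ρ t₀ : ℝ) (x₀ v₀ : Vec d) : Continuous (unc (sb β R ρ t₀ x₀ v₀)) := by
  unfold unc sb
  have h1 : Continuous fun q : ℝ × Vec d × Vec d => nsq (q.2.2 - v₀) :=
    continuous_sq.comp (by fun_prop)
  have h2 : Continuous fun q : ℝ × Vec d × Vec d => nsq (q.2.1 - x₀ - (q.1 - t₀) • q.2.2) :=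
    continuous_sq.comp (by fun_prop)
  fun_prop

private lemma sb_char (β R ρ t₀ : ℝ) (x₀ v₀ : Vec d) (t : ℝ) (x v : Vec d) :
    HasDerivAt (fun r => sb β R ρ t₀ x₀ v₀ r (x + (r - t) • v) v)
      (β * (1 - nsq (v - v₀) / (11 / 10 * R) ^ 2 - nsq (x - x₀ - (t - t₀) • v) / (ρ / 2) ^ 2)) t := by
  set M := 1 - nsq (v - v₀) / (11 / 10 * R) ^ 2 - nsq (x - x₀ - (t - t₀) • v) / (ρ / 2) ^ 2 with hM
  have e : (fun r => sb β R ρ t₀ x₀ v₀ r (x + (r - t) • v) v) = fun r => β * (r - t₀) * M := by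
    funext r
    unfold sb
    have e1 : x + (r - t) • v - x₀ - (r - t₀) • v = x - x₀ - (t - t₀) • v := by
      ext i
      simp only [Pi.add_apply, Pi.sub_apply, Pi.smul_apply, smul_eq_mul]
      ring
    rw [e1]
  rw [e]
  have h1 : HasDerivAt (fun r : ℝ => r - t₀) 1 t := (hasDerivAt_id t).sub_const t₀
  have h2 := (h1.const_mul β).mul_const M
  rwa [mul_one] at h2

private lemma sb_second {β R ρ t₀ h₁ : ℝ} (hβ : 0 ≤ β) (hR : 0 < R) (hρ : 0 < ρ) (x₀ v₀ : Vec d) {t : ℝ}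
    (h0 : t₀ ≤ t) (h1 : t ≤ t₀ + h₁) (hh : h₁ ≤ 1) (x v h : Vec d) :
    2 * sb β R ρ t₀ x₀ v₀ t x v -
        2 * (β * h₁ * (1 / (11 / 10 * R) ^ 2 + 1 / (ρ / 2) ^ 2 + 1)) * nsq h ≤
      sb β R ρ t₀ x₀ v₀ t x (v + h) + sb β R ρ t₀ x₀ v₀ t x (v - h) := by
  unfold sb
  have e1 : nsq (v + h - v₀) + nsq (v - h - v₀) = 2 * (nsq (v - v₀) + nsq h) := by
    have := nsq_par (v - v₀) h
    rw [show v + h - v₀ = v - v₀ + h by abel, show v - h - v₀ = v - v₀ - h by abel]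
    exact this
  have e2 : nsq (x - x₀ - (t - t₀) • (v + h)) + nsq (x - x₀ - (t - t₀) • (v - h)) =
      2 * (nsq (x - x₀ - (t - t₀) • v) + (t - t₀) ^ 2 * nsq h) := by
    have := nsq_par (x - x₀ - (t - t₀) • v) ((t - t₀) • h)
    rw [nsq_smul] at this
    rw [show x - x₀ - (t - t₀) • (v + h) = x - x₀ - (t - t₀) • v - (t - t₀) • h by
      rw [smul_add]; abel, show x - x₀ - (t - t₀) • (v - h) = x - x₀ - (t - t₀) • v + (t - t₀) • h by
      rw [smul_sub]; abel, add_comm]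
    exact this
  set τ := t - t₀ with hτ
  have hτ0 : 0 ≤ τ := by linarith
  have hτ1 : τ ≤ h₁ := by linarith
  set A := (11 / 10 * R) ^ 2 with hA
  set Bq := (ρ / 2) ^ 2 with hB
  have hA0 : 0 < A := by positivity
  have hB0 : 0 < Bq := by positivity
  have hn := sq_nonneg' h
  have h2 : τ ^ 2 ≤ 1 := by nlinarith
  have e3 : β * τ * (1 - nsq (v + h - v₀) / A - nsq (x - x₀ - τ • (v + h)) / Bq) +
      β * τ * (1 - nsq (v - h - v₀) / A - nsq (x - x₀ - τ • (v - h)) / Bq) =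
      β * τ * (2 - (nsq (v + h - v₀) + nsq (v - h - v₀)) / A -
        (nsq (x - x₀ - τ • (v + h)) + nsq (x - x₀ - τ • (v - h))) / Bq) := by ring
  rw [e3, e1, e2]
  have h3 : nsq h / A + τ ^ 2 * nsq h / Bq ≤ (1 / A + 1 / Bq + 1) * nsq h := by
    have h4 : τ ^ 2 * nsq h / Bq ≤ 1 * nsq h / Bq := by gcongr
    have h5 : (1 / A + 1 / Bq + 1) * nsq h = nsq h / A + 1 * nsq h / Bq + nsq h := by ring
    rw [h5]; linarith
  have h6 : 0 ≤ nsq h / A + τ ^ 2 * nsq h / Bq := by positivity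
  have h7 : β * τ * (nsq h / A + τ ^ 2 * nsq h / Bq) ≤ β * h₁ * ((1 / A + 1 / Bq + 1) * nsq h) := by
    refine mul_le_mul ?_ h3 h6 (mul_nonneg hβ (hτ0.trans hτ1))
    exact mul_le_mul_of_nonneg_left hτ1 hβ
  have e4 : β * τ * (2 - 2 * (nsq (v - v₀) + nsq h) / A - 2 * (nsq (x - x₀ - τ • v) + τ ^ 2 * nsq h) / Bq) =
      2 * (β * τ * (1 - nsq (v - v₀) / A - nsq (x - x₀ - τ • v) / Bq)) -
        2 * (β * τ * (nsq h / A + τ ^ 2 * nsq h / Bq)) := by ring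
  rw [e4]
  linarith

theorem cyl_step (HL : HypL d γ s b C Ca cb) (U : ℕ → ℝ) {V R ρ a h : ℝ} (hV : 0 ≤ V) (hR : 0 < R)
    (hρ : 0 < ρ) (ha : 0 < a) (hh : 0 < h) : ∃ h' ρ' a' : ℝ, 0 < h' ∧ h' ≤ h ∧ 0 < ρ' ∧ 0 < a' ∧
      ∀ (T : ℝ) (f : ℝ → Vec d → Vec d → ℝ), IsBoltzmannSol γ b T f → UB U T f →
        ∀ t₁ : ℝ, h ≤ t₁ → t₁ < T → ∀ x₀ v₀ : Vec d, nsq v₀ ≤ V ^ 2 →
          Cyl f (t₁ - h) t₁ x₀ v₀ ρ R a → Cyl f (t₁ - h') t₁ x₀ v₀ ρ' (51 / 50 * R) a' := by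
  have H := HL.H
  obtain ⟨K, hK0, hK⟩ := low_Q_gain H
  obtain ⟨c₃, hc₃, hg⟩ := grow_gain HL hR
  set Vo : ℝ := V + 11 / 10 * R with hVo
  obtain ⟨κ, hκ0, hκ⟩ := conv_le (d := d) U H.h0 H.h2 Vo
  set h₁ : ℝ := min h (min 1 (ρ / (10 * Vo))) with hh₁
  have hVo0 : 0 < Vo := by positivity
  have hh0 : 0 < h₁ := by positivity
  have hhh : h₁ ≤ h := min_le_left _ _
  have hh1 : h₁ ≤ 1 := (min_le_right _ _).trans (min_le_left _ _)
  have hhρ : h₁ * Vo ≤ ρ / 10 := by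
    have h3 : h₁ ≤ ρ / (10 * Vo) := (min_le_right _ _).trans (min_le_right _ _)
    calc h₁ * Vo ≤ ρ / (10 * Vo) * Vo := mul_le_mul_of_nonneg_right h3 hVo0.le
      _ = ρ / 10 := by field_simp
  set E : ℝ := h₁ * (1 / (11 / 10 * R) ^ 2 + 1 / (ρ / 2) ^ 2 + 1) with hE
  have hE0 : 0 < E := by positivity
  have hhE : h₁ ≤ E := by
    rw [hE]
    have : 0 ≤ 1 / (11 / 10 * R) ^ 2 + 1 / (ρ / 2) ^ 2 := by positivity
    nlinarith
  set β : ℝ := min (c₃ * (a ^ 2 / 2) / (2 * (1 + K * E * κ))) (a / (4 * E)) with hβ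
  have hβ0 : 0 < β := by positivity
  have hβ1 : β * (1 + K * E * κ) < c₃ * (a ^ 2 / 2) := by
    have h3 : β ≤ c₃ * (a ^ 2 / 2) / (2 * (1 + K * E * κ)) := min_le_left _ _
    have h4 : 0 < 1 + K * E * κ := by positivity
    calc β * (1 + K * E * κ) ≤ c₃ * (a ^ 2 / 2) / (2 * (1 + K * E * κ)) * (1 + K * E * κ) :=
          mul_le_mul_of_nonneg_right h3 h4.le
      _ = c₃ * (a ^ 2 / 2) / 2 := by field_simp
      _ < c₃ * (a ^ 2 / 2) := by
          have : 0 < c₃ * (a ^ 2 / 2) := by positivity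
          linarith
  have hβ2 : 4 * (β * E) ≤ a := by
    have h3 : β ≤ a / (4 * E) := min_le_right _ _
    calc 4 * (β * E) ≤ 4 * (a / (4 * E) * E) := by
          have := mul_le_mul_of_nonneg_right h3 hE0.le
          linarith
      _ = a := by field_simp
  refine ⟨h₁ / 2, ρ / 20, β * (h₁ / 2) * (1 / 20), by positivity, by linarith, by positivity, by positivity, ?_⟩
  intro T f hf hU t₁ ht₁ ht₁T x₀ v₀ hv₀ hcyl
  set t₀ : ℝ := t₁ - h₁ with ht₀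
  have hv₀l : len v₀ ≤ V := st_len hV hv₀
  have hpos : ∀ t ∈ Icc t₀ t₁, ∀ x v, 0 < sb β R ρ t₀ x₀ v₀ t x v →
      len (v - v₀) ≤ 11 / 10 * R ∧ len (x - x₀ - (t - t₀) • v) ≤ ρ / 2 := by
    intro t ht x v hp
    unfold sb at hp
    have h3 : 0 ≤ β * (t - t₀) := mul_nonneg hβ0.le (by linarith [ht.1])
    have h4 : 0 < 1 - nsq (v - v₀) / (11 / 10 * R) ^ 2 - nsq (x - x₀ - (t - t₀) • v) / (ρ / 2) ^ 2 := by
      by_contra h5
      have := mul_nonpos_of_nonneg_of_nonpos h3 (not_lt.1 h5)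
      linarith
    have h5 : 0 ≤ nsq (v - v₀) / (11 / 10 * R) ^ 2 := div_nonneg (sq_nonneg' _) (by positivity)
    have h6 : 0 ≤ nsq (x - x₀ - (t - t₀) • v) / (ρ / 2) ^ 2 := div_nonneg (sq_nonneg' _) (by positivity)
    have h7 : nsq (v - v₀) ≤ (11 / 10 * R) ^ 2 := by
      have : nsq (v - v₀) / (11 / 10 * R) ^ 2 ≤ 1 := by linarith
      rwa [div_le_one (by positivity)] at this
    have h8 : nsq (x - x₀ - (t - t₀) • v) ≤ (ρ / 2) ^ 2 := by
      have : nsq (x - x₀ - (t - t₀) • v) / (ρ / 2) ^ 2 ≤ 1 := by linarith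
      rwa [div_le_one (by positivity)] at this
    exact ⟨st_len (by positivity) h7, st_len (by positivity) h8⟩
  have hvb : ∀ v : Vec d, len (v - v₀) ≤ 11 / 10 * R → len v ≤ Vo := by
    intro v hv
    have := Pool.Agent.H48.PL.len_add_le v₀ (v - v₀)
    rw [add_sub_cancel] at this
    linarith
  have hxb : ∀ t ∈ Icc t₀ t₁, ∀ x v : Vec d, len v ≤ Vo → len (x - x₀) ≤ len (x - x₀ - (t - t₀) • v) + ρ / 10 := by
    intro t ht x v hv
    have h3 := Pool.Agent.H48.PL.len_add_le (x - x₀ - (t - t₀) • v) ((t - t₀) • v)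
    rw [sub_add_cancel, st_smul (by linarith [ht.1])] at h3
    have h4 : (t - t₀) * len v ≤ h₁ * Vo :=
      mul_le_mul (by linarith [ht.2]) hv (len_nonneg v) hh0.le
    linarith
  have hbar := local_barrier (show IsClassicalSol T _ f from hf) (t₀ := t₀) (t₁ := t₁)
    (X := len x₀ + ρ) (V := Vo) (by linarith) ht₁T (B := sb β R ρ t₀ x₀ v₀)
    (sb_cont β R ρ t₀ x₀ v₀).continuousOn
    (by
      intro t ht x v hout
      by_contra hcon
      obtain ⟨q1, q2⟩ := hpos t ht x v (not_le.1 hcon)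
      have q3 := hvb v q1
      have q4 := hxb t ht x v q3
      rcases hout with hx | hv
      · have q5 := Pool.Agent.H48.PL.len_add_le x₀ (x - x₀)
        rw [add_sub_cancel] at q5
        have q6 := norm_le_len x
        linarith
      · have q6 := norm_le_len v
        linarith)
    (by
      intro x v
      have e : sb β R ρ t₀ x₀ v₀ t₀ x v = 0 := by unfold sb; rw [sub_self]; ring
      rw [e]
      exact hf.nonneg t₀ ⟨by linarith, by linarith⟩ x v)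
    (by
      intro t ht x v hB hfB hmin
      have htI : t ∈ Icc t₀ t₁ := ⟨ht.1.le, ht.2⟩
      obtain ⟨q1, q2⟩ := hpos t htI x v hB
      have q3 := hvb v q1
      have q4 := hxb t htI x v q3
      refine ⟨_, sb_char β R ρ t₀ x₀ v₀ t x v, ?_⟩
      have htT : t ∈ Ioo 0 T := ⟨by linarith [ht.1], lt_of_le_of_lt ht.2 ht₁T⟩
      have hn := sol_nice (show IsClassicalSol T _ f from hf) htT x
      have hnn : ∀ u, 0 ≤ f t x u := fun u => hf.nonneg t ⟨htT.1.le, htT.2⟩ x u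
      have hM1 : 1 - nsq (v - v₀) / (11 / 10 * R) ^ 2 - nsq (x - x₀ - (t - t₀) • v) / (ρ / 2) ^ 2 ≤ 1 := by
        have h5 : 0 ≤ nsq (v - v₀) / (11 / 10 * R) ^ 2 := div_nonneg (sq_nonneg' _) (by positivity)
        have h6 : 0 ≤ nsq (x - x₀ - (t - t₀) • v) / (ρ / 2) ^ 2 := div_nonneg (sq_nonneg' _) (by positivity)
        linarith
      have hBle : sb β R ρ t₀ x₀ v₀ t x v ≤ β * E := by
        unfold sb
        calc _ ≤ β * (t - t₀) * 1 := mul_le_mul_of_nonneg_left hM1 (mul_nonneg hβ0.le (by linarith [ht.1]))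
          _ ≤ β * E := by rw [mul_one]; exact mul_le_mul_of_nonneg_left (by linarith [ht.2]) hβ0.le
      have hsec : ∀ k, 2 * f t x v - 2 * (β * E) * nsq k ≤ f t x (v + k) + f t x (v - k) := by
        intro k
        have q5 := sb_second (h₁ := h₁) hβ0.le hR hρ x₀ v₀ htI.1 (by linarith [ht.2]) hh1 x v k
        have q6 := hmin (v + k)
        have q7 := hmin (v - k)
        have e : β * h₁ * (1 / (11 / 10 * R) ^ 2 + 1 / (ρ / 2) ^ 2 + 1) = β * E := by rw [hE]; ring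
        rw [e] at q5
        linarith
      have hAm : MeasurableSet {w : Vec d | a ≤ f t x w} :=
        (isClosed_le continuous_const hn.cont).measurableSet
      have hGn := hg v₀ {w : Vec d | a ≤ f t x w} (fun w hw =>
        hcyl t ⟨by linarith [ht.1], ht.2⟩ x w (st_nsq (by linarith)) hw) v (st_nsq q1)
      have q8 := hK (f t x) hn hnn v (β * E) a c₃ (by positivity) hβ2 hc₃.le (hfB.le.trans hBle)
        hsec {w : Vec d | a ≤ f t x w} hAm (fun w hw => hw) hGn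
      have q9 := hκ (f t x) hn hnn (fun N u => hU N t ⟨htT.1.le, htT.2⟩ x u) v
        ((norm_le_len v).trans q3)
      have q10 : K * (β * E) * (∫ z, f t x z * len (v - z) ^ (γ + 2 * s)) ≤ K * (β * E) * κ :=
        mul_le_mul_of_nonneg_left q9 (by positivity)
      have q11 : β * (1 - nsq (v - v₀) / (11 / 10 * R) ^ 2 - nsq (x - x₀ - (t - t₀) • v) / (ρ / 2) ^ 2) ≤ β * 1 :=
        mul_le_mul_of_nonneg_left hM1 hβ0.le
      have q12 : β * (1 + K * E * κ) = β + K * (β * E) * κ := by ring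
      show _ < boltzQ γ b (f t x) v
      linarith)
  intro t ht x v hx hv
  have htI : t ∈ Icc t₀ t₁ := ⟨by linarith [ht.1], ht.2⟩
  refine le_trans ?_ (hbar t htI x v)
  have hvl := st_len (by positivity) hv
  have hxl := st_len (by positivity) hx
  have hv2 := hvb v (by linarith)
  have h3 : len (x - x₀ - (t - t₀) • v) ≤ 3 / 10 * (ρ / 2) := by
    have h4 := Pool.Agent.H48.PL.len_sub_le (x - x₀) ((t - t₀) • v)
    rw [st_smul (by linarith [htI.1])] at h4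
    have h5 : (t - t₀) * len v ≤ h₁ * Vo :=
      mul_le_mul (by linarith [ht.2]) hv2 (len_nonneg v) hh0.le
    linarith
  have h6 : nsq (x - x₀ - (t - t₀) • v) / (ρ / 2) ^ 2 ≤ 9 / 100 := by
    rw [div_le_iff₀ (by positivity)]
    calc _ ≤ (3 / 10 * (ρ / 2)) ^ 2 := st_nsq h3
      _ = 9 / 100 * (ρ / 2) ^ 2 := by ring
  have h7 : nsq (v - v₀) / (11 / 10 * R) ^ 2 ≤ 43 / 50 := by
    rw [div_le_iff₀ (by positivity)]
    refine hv.trans ?_
    have : 0 < R ^ 2 := by positivity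
    nlinarith
  unfold sb
  have h8 : (1 : ℝ) / 20 ≤ 1 - nsq (v - v₀) / (11 / 10 * R) ^ 2 - nsq (x - x₀ - (t - t₀) • v) / (ρ / 2) ^ 2 := by
    linarith
  exact mul_le_mul (mul_le_mul_of_nonneg_left (by linarith [ht.1]) hβ0.le) h8 (by norm_num)
    (mul_nonneg hβ0.le (by linarith [htI.1]))

theorem cyl_iter (HL : HypL d γ s b C Ca cb) (U : ℕ → ℝ) {V : ℝ} (hV : 0 ≤ V) (n : ℕ) :
    ∀ {R ρ a h : ℝ}, 0 < R → 0 < ρ → 0 < a → 0 < h → ∃ h' ρ' a' : ℝ, 0 < h' ∧ h' ≤ h ∧ 0 < ρ' ∧ 0 < a' ∧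
      ∀ (T : ℝ) (f : ℝ → Vec d → Vec d → ℝ), IsBoltzmannSol γ b T f → UB U T f →
        ∀ t₁ : ℝ, h ≤ t₁ → t₁ < T → ∀ x₀ v₀ : Vec d, nsq v₀ ≤ V ^ 2 →
          Cyl f (t₁ - h) t₁ x₀ v₀ ρ R a → Cyl f (t₁ - h') t₁ x₀ v₀ ρ' ((51 / 50) ^ n * R) a' := by
  induction n with
  | zero =>
    intro R ρ a h hR hρ ha hh
    refine ⟨h, ρ, a, hh, le_rfl, hρ, ha, fun T f _ _ t₁ _ _ x₀ v₀ _ hc => ?_⟩
    rw [pow_zero, one_mul]
    exact hc
  | succ n ih =>
    intro R ρ a h hR hρ ha hh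
    obtain ⟨h1, ρ1, a1, q1, q2, q3, q4, q5⟩ := ih hR hρ ha hh
    obtain ⟨h2, ρ2, a2, r1, r2, r3, r4, r5⟩ := cyl_step HL U hV (R := (51 / 50) ^ n * R)
      (by positivity) q3 q4 q1
    refine ⟨h2, ρ2, a2, r1, r2.trans q2, r3, r4, fun T f hf hU t₁ ht ht1 x₀ v₀ hv hc => ?_⟩
    have h3 := r5 T f hf hU t₁ (q2.trans ht) ht1 x₀ v₀ hv (q5 T f hf hU t₁ ht ht1 x₀ v₀ hv hc)
    have e : (51 / 50 : ℝ) ^ (n + 1) * R = 51 / 50 * ((51 / 50) ^ n * R) := by ring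
    rw [e]
    exact h3

end Pool.Agent.H85.LF
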